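import Mathlib

open Set Filter Topology Complex

namespace Pool.Agent.X19.NR

noncomputable section

variable {H : Type*} [NormedAddCommGroup H] [InnerProductSpace ℂ H]

theorem inner_self_ofReal (y : H) : (inner ℂ (y) (y)) = ((‖y‖ ^ 2 : ℝ) : ℂ) := by
  rw [inner_self_eq_norm_sq_to_K]; push_cast; rfl

/-- (I.1) the first disc -/
theorem disc_one (B : H →ₗ[ℂ] H) (hB : ∀ v, 0 ≤ ((inner ℂ (v) (B v))).re) {k s ρ : ℝ} (hk : 0 < k)
    (hks : k ^ 2 + s ^ 2 = 1) (hρ : 0 ≤ ρ) {y z : H}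
    (hz : ((ρ : ℂ) * (⟨k, s⟩ : ℂ)) • z + B z = y) :
    ‖((ρ : ℂ) * (⟨k, s⟩ : ℂ)) * (inner ℂ (y) (z)) - ((‖y‖ ^ 2 : ℝ) : ℂ) * (⟨k, s⟩ : ℂ) / (2 * k)‖ ≤
      ‖y‖ ^ 2 / (2 * k) := by
  have hu' : ‖(⟨k, s⟩ : ℂ)‖ = 1 := by
    have : ‖(⟨k, s⟩ : ℂ)‖ ^ 2 = 1 := by
      rw [← normSq_eq_norm_sq, normSq_apply]; simp only; linarith
    nlinarith [norm_nonneg (⟨k, s⟩ : ℂ)]
  have h1 : ((inner ℂ (z) (y))).re = ρ * k * ‖z‖ ^ 2 + ((inner ℂ (z) (B z))).re := by
    rw [← hz, inner_add_right, inner_smul_right, inner_self_ofReal, Complex.add_re]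
    congr 1
    rw [Complex.re_mul_ofReal]
    simp
  have h2 : ‖((2 * ρ * k : ℝ) : ℂ) • z - y‖ ≤ ‖y‖ := by
    have h3 : ‖((2 * ρ * k : ℝ) : ℂ) • z - y‖ ^ 2 =
        (2 * ρ * k) ^ 2 * ‖z‖ ^ 2 - 2 * (2 * ρ * k) * ((inner ℂ (z) (y))).re + ‖y‖ ^ 2 := by
      have := norm_sub_sq (𝕜 := ℂ) (((2 * ρ * k : ℝ) : ℂ) • z) y
      rw [this, inner_smul_left, Complex.conj_ofReal]
      have e : RCLike.re (((2 * ρ * k : ℝ) : ℂ) * (inner ℂ (z) (y))) = (2 * ρ * k) * ((inner ℂ (z) (y))).re := by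
        change (((2 * ρ * k : ℝ) : ℂ) * (inner ℂ (z) (y))).re = _
        rw [Complex.re_ofReal_mul]
      rw [e, norm_smul, Complex.norm_real, Real.norm_of_nonneg (by positivity)]
      ring
    have h4 : ‖((2 * ρ * k : ℝ) : ℂ) • z - y‖ ^ 2 ≤ ‖y‖ ^ 2 := by
      rw [h3, h1]
      have := hB z
      nlinarith [mul_nonneg (mul_nonneg hρ hk.le) this]
    exact (pow_le_pow_iff_left₀ (norm_nonneg _) (norm_nonneg _) two_ne_zero).1 h4
  have hk' : (k : ℂ) ≠ 0 := by exact_mod_cast hk.ne'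
  have e : ((ρ : ℂ) * (⟨k, s⟩ : ℂ)) * (inner ℂ (y) (z)) - ((‖y‖ ^ 2 : ℝ) : ℂ) * (⟨k, s⟩ : ℂ) / (2 * k) =
      ((⟨k, s⟩ : ℂ) / (2 * k)) * (inner ℂ (y) (((2 * ρ * k : ℝ) : ℂ) • z - y)) := by
    rw [inner_sub_right, inner_smul_right, inner_self_ofReal]
    push_cast
    field_simp
  rw [e, norm_mul, norm_div, hu', norm_mul, Complex.norm_real, Real.norm_of_nonneg hk.le]
  have h5 : ‖(inner ℂ (y) (((2 * ρ * k : ℝ) : ℂ) • z - y))‖ ≤ ‖y‖ * ‖y‖ :=
    (norm_inner_le_norm _ _).trans (by gcongr)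
  have e2 : ‖(2 : ℂ)‖ = 2 := by simp
  rw [e2]
  calc 1 / (2 * k) * ‖(inner ℂ (y) (((2 * ρ * k : ℝ) : ℂ) • z - y))‖ ≤ 1 / (2 * k) * (‖y‖ * ‖y‖) := by gcongr
    _ = _ := by ring

/-- (I.2) Schwarz lemma -/
theorem berger (B : H →ₗ[ℂ] H) (hB : ∀ v, ‖(inner ℂ (v) (B v))‖ ≤ ‖v‖ ^ 2) (y : H) (zf : ℂ → H)
    (hz : ∀ η ∈ Metric.ball (0 : ℂ) 1, zf η + η • B (zf η) = y)
    (hd : DifferentiableOn ℂ (fun η => (inner ℂ (y) (zf η))) (Metric.ball 0 1)) {η : ℂ} (hη : ‖η‖ < 1) :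
    ‖(inner ℂ (y) (zf η)) - ((‖y‖ ^ 2 : ℝ) : ℂ)‖ ≤ ‖η‖ * ‖(inner ℂ (y) (zf η)) + ((‖y‖ ^ 2 : ℝ) : ℂ)‖ := by
  rcases eq_or_ne y 0 with rfl | hy
  · simp
  have hY : 0 < ‖y‖ ^ 2 := by have := norm_pos_iff.2 hy; positivity
  set Y : ℝ := ‖y‖ ^ 2 with hYd
  set h : ℂ → ℂ := fun η => (inner ℂ (y) (zf η)) with hh
  have hre : ∀ η ∈ Metric.ball (0 : ℂ) 1, 0 ≤ (h η).re := by
    intro η hη
    have h1 : ‖η‖ < 1 := by simpa using hη
    have h2 : (h η).re = ‖zf η‖ ^ 2 + (η * (inner ℂ (zf η) (B (zf η)))).re := by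
      have h3 : (h η).re = ((inner ℂ (zf η) (y))).re := by
        rw [hh]
        simp only
        rw [← inner_conj_symm, Complex.conj_re]
      rw [h3]
      conv_lhs => rw [← hz η hη]
      rw [inner_add_right, inner_smul_right, inner_self_ofReal, Complex.add_re, Complex.ofReal_re]
    rw [h2]
    have h4 : ‖η * (inner ℂ (zf η) (B (zf η)))‖ ≤ ‖zf η‖ ^ 2 := by
      rw [norm_mul]
      calc ‖η‖ * ‖(inner ℂ (zf η) (B (zf η)))‖ ≤ 1 * ‖zf η‖ ^ 2 :=
            mul_le_mul h1.le (hB _) (norm_nonneg _) zero_le_one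
        _ = _ := one_mul _
    have h5 := (abs_le.1 (Complex.abs_re_le_norm (η * (inner ℂ (zf η) (B (zf η)))))).1
    linarith
  have hne : ∀ η ∈ Metric.ball (0 : ℂ) 1, h η + Y ≠ 0 := by
    intro η hη h0
    have := congrArg Complex.re h0
    rw [Complex.add_re, Complex.ofReal_re, Complex.zero_re] at this
    have := hre η hη
    linarith
  have h0 : h 0 = Y := by
    have := hz 0 (by simp)
    rw [zero_smul, add_zero] at this
    rw [hh]
    simp only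
    rw [this, inner_self_ofReal]
  set g : ℂ → ℂ := fun η => (h η - Y) / (h η + Y) with hg
  have hgd : DifferentiableOn ℂ g (Metric.ball 0 1) :=
    (hd.sub (differentiableOn_const _)).div (hd.add (differentiableOn_const _)) hne
  have hgle : ∀ η ∈ Metric.ball (0 : ℂ) 1, ‖g η‖ ≤ 1 := by
    intro η hη
    rw [hg]
    simp only
    rw [norm_div, div_le_one (norm_pos_iff.2 (hne η hη))]
    have h1 := hre η hη
    have h2 : ‖h η - Y‖ ^ 2 ≤ ‖h η + Y‖ ^ 2 := by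
      rw [← normSq_eq_norm_sq, ← normSq_eq_norm_sq, normSq_apply, normSq_apply]
      simp
      nlinarith
    exact (pow_le_pow_iff_left₀ (norm_nonneg _) (norm_nonneg _) two_ne_zero).1 h2
  have hg0 : g 0 = 0 := by
    rw [hg]; simp only; rw [h0, sub_self, zero_div]
  have hmem : η ∈ Metric.ball (0 : ℂ) 1 := by simpa using hη
  have key : ‖g η‖ ≤ ‖η‖ := by
    exact Complex.norm_le_norm_of_mapsTo_ball hgd (fun w hw => by
      simpa using hgle w hw) hg0 hη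
  have e : ‖g η‖ * ‖h η + Y‖ = ‖h η - Y‖ := by
    rw [hg]; simp only
    rw [norm_div, div_mul_cancel₀ _ (norm_pos_iff.2 (hne η hmem)).ne']
  rw [← e]
  gcongr

theorem disc_of {h : ℂ} {Y ρ : ℝ} (hρ : 1 < ρ)
    (hh : ‖h - (Y : ℂ)‖ ≤ ρ⁻¹ * ‖h + (Y : ℂ)‖) :
    ‖h - Y * ((ρ ^ 2 + 1) / (ρ ^ 2 - 1) : ℝ)‖ ≤ |Y| * (2 * ρ / (ρ ^ 2 - 1)) := by
  have hρ2 : 0 < ρ ^ 2 - 1 := by nlinarith
  have h1 : ρ * ‖h - (Y : ℂ)‖ ≤ ‖h + (Y : ℂ)‖ := by
    have := mul_le_mul_of_nonneg_left hh (by linarith : 0 ≤ ρ)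
    rwa [← mul_assoc, mul_inv_cancel₀ (by linarith : ρ ≠ 0), one_mul] at this
  have h2 : ρ ^ 2 * ‖h - (Y : ℂ)‖ ^ 2 ≤ ‖h + (Y : ℂ)‖ ^ 2 := by
    rw [← mul_pow]
    exact pow_le_pow_left₀ (by positivity) h1 2
  have e1 : ‖h - (Y : ℂ)‖ ^ 2 = (h.re - Y) ^ 2 + h.im ^ 2 := by
    rw [← normSq_eq_norm_sq, normSq_apply]; simp; ring
  have e2 : ‖h + (Y : ℂ)‖ ^ 2 = (h.re + Y) ^ 2 + h.im ^ 2 := by
    rw [← normSq_eq_norm_sq, normSq_apply]; simp; ring
  rw [e1, e2] at h2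
  have e3 : ‖h - Y * ((ρ ^ 2 + 1) / (ρ ^ 2 - 1) : ℝ)‖ ^ 2 =
      (h.re - Y * ((ρ ^ 2 + 1) / (ρ ^ 2 - 1))) ^ 2 + h.im ^ 2 := by
    rw [← Complex.ofReal_mul, ← normSq_eq_norm_sq, normSq_apply]
    simp only [Complex.sub_re, Complex.sub_im, Complex.ofReal_re, Complex.ofReal_im]
    ring
  have h3 : ‖h - Y * ((ρ ^ 2 + 1) / (ρ ^ 2 - 1) : ℝ)‖ ^ 2 ≤ (|Y| * (2 * ρ / (ρ ^ 2 - 1))) ^ 2 := by
    rw [e3, mul_pow, sq_abs]
    have h4 : (ρ ^ 2 - 1) * ((h.re - Y * ((ρ ^ 2 + 1) / (ρ ^ 2 - 1))) ^ 2 + h.im ^ 2) ≤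
        (ρ ^ 2 - 1) * (Y ^ 2 * (2 * ρ / (ρ ^ 2 - 1)) ^ 2) := by
      have e4 : (ρ ^ 2 - 1) * ((h.re - Y * ((ρ ^ 2 + 1) / (ρ ^ 2 - 1))) ^ 2 + h.im ^ 2) -
          (ρ ^ 2 - 1) * (Y ^ 2 * (2 * ρ / (ρ ^ 2 - 1)) ^ 2) =
          ρ ^ 2 * ((h.re - Y) ^ 2 + h.im ^ 2) - ((h.re + Y) ^ 2 + h.im ^ 2) := by
        field_simp
        ring
      linarith
    exact le_of_mul_le_mul_left h4 hρ2
  exact (pow_le_pow_iff_left₀ (norm_nonneg _) (by positivity) two_ne_zero).1 h3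

/-- (II) the first order condition at a maximiser -/
theorem first_order (B : H →ₗ[ℂ] H) (hB : ∀ v, ‖(inner ℂ (v) (B v))‖ ≤ ‖v‖ ^ 2) {x : H} (hx : ‖x‖ = 1)
    {a : ℂ} (ha : (inner ℂ (x) (B x)) = a) (ha1 : ‖a‖ = 1) (v : H) :
    2 * (inner ℂ (v) (x)) = (starRingEnd ℂ a) * (inner ℂ (v) (B x)) + a * (inner ℂ (B v) (x)) := by
  have haa : (starRingEnd ℂ a) * a = 1 := by
    rw [← Complex.normSq_eq_conj_mul_self, Complex.normSq_eq_norm_sq, ha1]; simp
  -- the quadratic form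
  have hQ : ∀ v, 0 ≤ ‖v‖ ^ 2 - ((starRingEnd ℂ a) * (inner ℂ (v) (B v))).re := by
    intro v
    have h1 := (Complex.re_le_norm ((starRingEnd ℂ a) * (inner ℂ (v) (B v))))
    rw [norm_mul, RCLike.norm_conj, ha1, one_mul] at h1
    linarith [hB v]
  have hL : ∀ v, 2 * ((inner ℂ (v) (x))).re = ((starRingEnd ℂ a) * (inner ℂ (v) (B x)) + a * (inner ℂ (B v) (x))).re := by
    intro v
    set L : ℝ := 2 * ((inner ℂ (v) (x))).re - ((starRingEnd ℂ a) * (inner ℂ (v) (B x)) + a * (inner ℂ (B v) (x))).re with hLd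
    have hexp : ∀ ε : ℝ, 0 ≤ ε * L + ε ^ 2 * (‖v‖ ^ 2 - ((starRingEnd ℂ a) * (inner ℂ (v) (B v))).re) := by
      intro ε
      have h1 := hQ (x + (ε : ℂ) • v)
      have h2 : ‖x + (ε : ℂ) • v‖ ^ 2 = 1 + 2 * ε * ((inner ℂ (v) (x))).re + ε ^ 2 * ‖v‖ ^ 2 := by
        have := norm_add_sq (𝕜 := ℂ) x ((ε : ℂ) • v)
        rw [this, inner_smul_right, hx, norm_smul, Complex.norm_real]
        have e : RCLike.re ((ε : ℂ) * (inner ℂ (x) (v))) = ε * ((inner ℂ (v) (x))).re := by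
          change ((ε : ℂ) * (inner ℂ (x) (v))).re = _
          rw [Complex.re_ofReal_mul, ← inner_conj_symm, Complex.conj_re]
        rw [e, mul_pow, Real.norm_eq_abs, sq_abs]
        ring
      have h3 : ((starRingEnd ℂ a) * (inner ℂ (x + (ε : ℂ) • v) (B (x + (ε : ℂ) • v)))).re =
          1 + ε * ((starRingEnd ℂ a) * (inner ℂ (v) (B x)) + a * (inner ℂ (B v) (x))).re +
          ε ^ 2 * ((starRingEnd ℂ a) * (inner ℂ (v) (B v))).re := by
        rw [map_add, map_smul, inner_add_left, inner_add_right, inner_add_right, inner_smul_left,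
          inner_smul_left, inner_smul_right, inner_smul_right, Complex.conj_ofReal, ha]
        have e1 : (a * (inner ℂ (B v) (x))).re = ((starRingEnd ℂ a) * (inner ℂ (x) (B v))).re := by
          rw [← Complex.conj_re (a * (inner ℂ (B v) (x))), map_mul, inner_conj_symm]
        rw [Complex.add_re (_ * _) (a * _), e1]
        have e2 : (starRingEnd ℂ a) * (a + (ε : ℂ) * (inner ℂ (x) (B v)) +
            ((ε : ℂ) * (inner ℂ (v) (B x)) + (ε : ℂ) * ((ε : ℂ) * (inner ℂ (v) (B v))))) =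
            (starRingEnd ℂ a) * a + ((ε : ℝ) : ℂ) * ((starRingEnd ℂ a) * (inner ℂ (v) (B x)) +
              (starRingEnd ℂ a) * (inner ℂ (x) (B v))) +
            ((ε ^ 2 : ℝ) : ℂ) * ((starRingEnd ℂ a) * (inner ℂ (v) (B v))) := by
          push_cast; ring
        rw [e2, haa, Complex.add_re, Complex.add_re, Complex.re_ofReal_mul, Complex.re_ofReal_mul,
          Complex.one_re, Complex.add_re]
      rw [h2, h3] at h1
      rw [hLd]
      linarith
    have hL0 : L = 0 := by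
      set K := ‖v‖ ^ 2 - ((starRingEnd ℂ a) * (inner ℂ (v) (B v))).re with hK
      have hK0 : 0 ≤ K := hQ v
      by_contra hne
      have h1 := hexp (-L / (2 * (K + 1)))
      have h2 : -L / (2 * (K + 1)) * L + (-L / (2 * (K + 1))) ^ 2 * K =
          -(L ^ 2 * (K + 2)) / (4 * (K + 1) ^ 2) := by
        field_simp
        ring
      rw [h2] at h1
      have h3 : 0 < L ^ 2 * (K + 2) / (4 * (K + 1) ^ 2) := by
        have : 0 < L ^ 2 := by positivity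
        positivity
      rw [neg_div] at h1
      linarith
    linarith
  apply Complex.ext
  · have := hL v
    rw [← this]
    simp
  · have := hL (Complex.I • v)
    rw [map_smul, inner_smul_left, inner_smul_left, inner_smul_left, Complex.conj_I] at this
    have e1 : (starRingEnd ℂ a) * (-Complex.I * (inner ℂ (v) (B x))) + a * (-Complex.I * (inner ℂ (B v) (x))) =
        -Complex.I * ((starRingEnd ℂ a) * (inner ℂ (v) (B x)) + a * (inner ℂ (B v) (x))) := by ring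
    rw [e1] at this
    simp only [neg_mul, Complex.neg_re, Complex.I_mul_re, neg_neg] at this
    simp only [Complex.mul_im, Complex.re_ofNat, Complex.im_ofNat, zero_mul, add_zero]
    exact this

/-- the resolvent formula at a maximiser -/
theorem resolvent_formula (B : H →ₗ[ℂ] H) (hB : ∀ v, ‖(inner ℂ (v) (B v))‖ ≤ ‖v‖ ^ 2) {x : H} (hx : ‖x‖ = 1)
    {a : ℂ} (ha : (inner ℂ (x) (B x)) = a) (ha1 : ‖a‖ = 1) :
    ∃ y : H, ∀ σ : ℂ, σ + a ≠ 0 → (∀ v, σ • v + B v = 0 → v = 0) →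
      ∀ w z : H, σ • w + B w = x → σ • z + B z = y →
      (inner ℂ (x) (w)) = 1 / (σ + a) - a ^ 2 * (inner ℂ (y) (z)) / (σ + a) ^ 2 := by
  have haa : (starRingEnd ℂ a) * a = 1 := by
    rw [← Complex.normSq_eq_conj_mul_self, Complex.normSq_eq_norm_sq, ha1]; simp
  have hxx : (inner ℂ (x) (x)) = (1 : ℂ) := by rw [inner_self_ofReal, hx]; simp
  refine ⟨(-Complex.I) • ((starRingEnd ℂ a) • B x - x), ?_⟩
  set y : H := (-Complex.I) • ((starRingEnd ℂ a) • B x - x) with hy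
  have hBx : B x = a • (x + Complex.I • y) := by
    rw [hy, smul_smul]
    have : Complex.I * -Complex.I = 1 := by simp
    rw [this, one_smul, add_sub_cancel, smul_smul, mul_comm, haa, one_smul]
  have hxy : (inner ℂ (x) (y)) = 0 := by
    rw [hy, inner_smul_right, inner_sub_right, inner_smul_right, ha, haa, hxx]
    simp
  have hadj : ∀ v, a * (inner ℂ (B v) (x)) = (inner ℂ (v) (x)) - Complex.I * (inner ℂ (v) (y)) := by
    intro v
    have h1 := first_order B hB hx ha ha1 v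
    have h2 : a * (inner ℂ (B v) (x)) = 2 * (inner ℂ (v) (x)) - (starRingEnd ℂ a) * (inner ℂ (v) (B x)) := by
      rw [h1]; ring
    rw [h2, hBx, inner_smul_right, inner_add_right, inner_smul_right, ← mul_assoc, haa]
    ring
  intro σ hσ hinj w z hw hz
  -- `x = (σ + a) w + i a z`
  have hxw : x = (σ + a) • w + (Complex.I * a) • z := by
    have h1 : σ • (x - ((σ + a) • w + (Complex.I * a) • z)) +
        B (x - ((σ + a) • w + (Complex.I * a) • z)) = 0 := by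
      rw [map_sub, map_add, map_smul, map_smul]
      have h2 : σ • (x - ((σ + a) • w + (Complex.I * a) • z)) +
          (B x - ((σ + a) • B w + (Complex.I * a) • B z)) =
          (σ • x + B x) - ((σ + a) • (σ • w + B w) + (Complex.I * a) • (σ • z + B z)) := by
        module
      rw [h2, hw, hz, hBx]
      module
    have h3 := hinj _ h1
    exact sub_eq_zero.1 h3
  have hxz : (σ + a) * (inner ℂ (x) (z)) = -(Complex.I * a * (inner ℂ (y) (z))) := by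
    have h1 : (0 : ℂ) = σ * (inner ℂ (x) (z)) + (inner ℂ (x) (B z)) := by
      rw [← hxy, ← hz, inner_add_right, inner_smul_right]
    have h2 : (inner ℂ (x) (B z)) = a * ((inner ℂ (x) (z)) + Complex.I * (inner ℂ (y) (z))) := by
      have h3 := congrArg (starRingEnd ℂ) (hadj z)
      rw [map_mul, map_sub, map_mul, inner_conj_symm, inner_conj_symm, inner_conj_symm,
        Complex.conj_I] at h3
      have h4 : (inner ℂ (x) (B z)) = a * ((starRingEnd ℂ a) * (inner ℂ (x) (B z))) := by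
        rw [← mul_assoc, mul_comm a, haa, one_mul]
      rw [h4, h3]
      ring
    rw [h2] at h1
    linear_combination -h1
  have h1 : (1 : ℂ) = (σ + a) * (inner ℂ (x) (w)) + Complex.I * a * (inner ℂ (x) (z)) := by
    rw [← hxx]
    nth_rw 2 [hxw]
    rw [inner_add_right, inner_smul_right, inner_smul_right]
  have h2 : (inner ℂ (x) (z)) = -(Complex.I * a * (inner ℂ (y) (z))) / (σ + a) := by
    rw [eq_div_iff hσ, mul_comm]; exact hxz
  have h3 : (inner ℂ (x) (w)) = (1 - Complex.I * a * (inner ℂ (x) (z))) / (σ + a) := by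
    rw [eq_div_iff hσ]; linear_combination -h1
  rw [h3, h2]
  field_simp
  rw [Complex.I_sq]
  ring

end

end Pool.Agent.X19.NR
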