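import Mathlib
import Pool.Agent.Helper152.HilbG

open Set Filter Topology MeasureTheory Complex

namespace Pool.Agent.X19.NR

noncomputable section

theorem lowbd {w : ℂ} (hw : w ∈ slitPlane) :
    ∃ δ > 0, ∀ ρ : ℝ, 0 ≤ ρ → δ * (1 + ρ) ≤ ‖(ρ : ℂ) + w‖ := by
  have hn : 0 < ‖w‖ := norm_pos_iff.2 (slitPlane_ne_zero hw)
  have hsq : ‖w‖ ^ 2 = w.re ^ 2 + w.im ^ 2 := by
    rw [← normSq_eq_norm_sq, normSq_apply]; ring
  have hh : 0 < ‖w‖ + w.re := by
    rcases hw with h | h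
    · linarith
    · by_contra hc
      have h1 : ‖w‖ ≤ -w.re := by linarith
      have h2 : ‖w‖ ^ 2 ≤ w.re ^ 2 := by nlinarith
      have h3 : 0 < w.im ^ 2 := by positivity
      linarith
  have hs : w.re ≤ ‖w‖ := Complex.re_le_norm w
  set n := ‖w‖ with hnd
  set s := w.re with hsd
  set m := min 1 (n ^ 2) with hm
  have hm0 : 0 < m := by positivity
  set c := (n + s) / (2 * n) * m / 2 with hc
  have hc0 : 0 < c := by positivity
  refine ⟨Real.sqrt c, Real.sqrt_pos.2 hc0, fun ρ hρ => ?_⟩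
  have key : c * (1 + ρ) ^ 2 ≤ ‖(ρ : ℂ) + w‖ ^ 2 := by
    have e1 : ‖(ρ : ℂ) + w‖ ^ 2 = ρ ^ 2 + 2 * ρ * s + n ^ 2 := by
      rw [← normSq_eq_norm_sq, normSq_apply, hsq]
      simp
      ring
    rw [e1]
    have e2 : m * (1 + ρ) ^ 2 / 2 ≤ ρ ^ 2 + n ^ 2 := by
      have h1 : m ≤ 1 := min_le_left _ _
      have h2 : m ≤ n ^ 2 := min_le_right _ _
      nlinarith [sq_nonneg (1 - ρ), mul_le_mul_of_nonneg_right h1 (sq_nonneg ρ)]
    have e3 : (n + s) / (2 * n) * (ρ ^ 2 + n ^ 2) ≤ ρ ^ 2 + 2 * ρ * s + n ^ 2 := by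
      rw [div_mul_eq_mul_div, div_le_iff₀ (by positivity)]
      have h4 : 0 ≤ (ρ - n) ^ 2 := sq_nonneg _
      rcases le_or_gt 0 s with h | h
      · nlinarith [mul_nonneg (mul_nonneg hρ h) hn.le, mul_nonneg (sub_nonneg.2 hs) (add_nonneg (sq_nonneg ρ) (sq_nonneg n))]
      · nlinarith [mul_nonneg (neg_nonneg.2 h.le) h4, mul_nonneg hh.le (add_nonneg (sq_nonneg ρ) (sq_nonneg n))]
    calc c * (1 + ρ) ^ 2 = (n + s) / (2 * n) * (m * (1 + ρ) ^ 2 / 2) := by rw [hc]; ring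
      _ ≤ (n + s) / (2 * n) * (ρ ^ 2 + n ^ 2) := by
          apply mul_le_mul_of_nonneg_left e2; positivity
      _ ≤ _ := e3
  have h5 : (Real.sqrt c * (1 + ρ)) ^ 2 ≤ ‖(ρ : ℂ) + w‖ ^ 2 := by
    rw [mul_pow, Real.sq_sqrt hc0.le]; exact key
  exact (pow_le_pow_iff_left₀ (by positivity) (norm_nonneg _) two_ne_zero).1 h5

theorem lowbd_nhds {w : ℂ} (hw : w ∈ slitPlane) :
    ∃ δ > 0, ∀ v ∈ Metric.ball w δ, ∀ ρ : ℝ, 0 ≤ ρ → δ * (1 + ρ) ≤ ‖(ρ : ℂ) + v‖ := by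
  obtain ⟨δ, hδ, h⟩ := lowbd hw
  refine ⟨δ / 2, by positivity, fun v hv ρ hρ => ?_⟩
  have h1 := h ρ hρ
  have h2 : ‖v - w‖ < δ / 2 := by simpa [dist_eq_norm] using hv
  have h3 : ‖(ρ : ℂ) + w‖ ≤ ‖(ρ : ℂ) + v‖ + ‖v - w‖ := by
    have : (ρ : ℂ) + w = (ρ + v) - (v - w) := by ring
    rw [this]; exact norm_sub_le _ _
  nlinarith

/-- `ρ ^ (t - 1) / (1 + ρ)` is integrable. -/
theorem base_int {t : ℝ} (h0 : 0 < t) (h1 : t < 1) :
    IntegrableOn (fun ρ : ℝ => ρ ^ (t - 1) * (1 + ρ)⁻¹) (Ioi 0) := by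
  rw [← Ioc_union_Ioi_eq_Ioi (zero_le_one (α := ℝ))]
  apply IntegrableOn.union
  · have h2 : IntegrableOn (fun ρ : ℝ => ρ ^ (t - 1)) (Ioc 0 1) := by
      rw [← intervalIntegrable_iff_integrableOn_Ioc_of_le zero_le_one]
      exact intervalIntegral.intervalIntegrable_rpow' (by linarith)
    refine Integrable.mono' h2 ?_ ?_
    · apply ContinuousOn.aestronglyMeasurable _ measurableSet_Ioc
      intro ρ hρ
      have : 0 < ρ := hρ.1
      apply ContinuousAt.continuousWithinAt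
      exact (Real.continuousAt_rpow_const _ _ (Or.inl this.ne')).mul
        ((continuousAt_const.add continuousAt_id).inv₀ (show (1 : ℝ) + ρ ≠ 0 by positivity))
    · rw [ae_restrict_iff' measurableSet_Ioc]
      refine Eventually.of_forall fun ρ hρ => ?_
      have : 0 < ρ := hρ.1
      rw [Real.norm_of_nonneg (by positivity)]
      apply mul_le_of_le_one_right (by positivity)
      rw [inv_le_one₀ (by positivity)]; linarith
  · have h2 : IntegrableOn (fun ρ : ℝ => ρ ^ (t - 2)) (Ioi 1) :=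
      integrableOn_Ioi_rpow_of_lt (by linarith) one_pos
    refine Integrable.mono' h2 ?_ ?_
    · apply ContinuousOn.aestronglyMeasurable _ measurableSet_Ioi
      intro ρ hρ
      have : 0 < ρ := lt_trans one_pos hρ
      apply ContinuousAt.continuousWithinAt
      exact (Real.continuousAt_rpow_const _ _ (Or.inl this.ne')).mul
        ((continuousAt_const.add continuousAt_id).inv₀ (show (1 : ℝ) + ρ ≠ 0 by positivity))
    · rw [ae_restrict_iff' measurableSet_Ioi]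
      refine Eventually.of_forall fun ρ hρ => ?_
      have : 0 < ρ := lt_trans one_pos hρ
      rw [Real.norm_of_nonneg (by positivity)]
      have e : ρ ^ (t - 2) = ρ ^ (t - 1) * ρ⁻¹ := by
        rw [← Real.rpow_neg_one, ← Real.rpow_add this]; congr 1; ring
      rw [e]
      apply mul_le_mul_of_nonneg_left _ (by positivity)
      apply inv_anti₀ this; linarith

/-- the basic integral -/
def F (t : ℝ) (w : ℂ) : ℂ := ∫ ρ in Ioi (0 : ℝ), ((ρ ^ (t - 1) : ℝ) : ℂ) * ((ρ : ℂ) + w)⁻¹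

theorem ne_zero {w : ℂ} (hw : w ∈ slitPlane) {ρ : ℝ} (hρ : 0 ≤ ρ) : (ρ : ℂ) + w ≠ 0 := by
  obtain ⟨δ, hδ, h⟩ := lowbd hw
  have := h ρ hρ
  rw [← norm_pos_iff]
  have : 0 < δ * (1 + ρ) := by positivity
  linarith

theorem meas {t : ℝ} {w : ℂ} (hw : w ∈ slitPlane) (k : ℕ) :
    AEStronglyMeasurable (fun ρ : ℝ => ((ρ ^ (t - 1) : ℝ) : ℂ) * (((ρ : ℂ) + w)⁻¹) ^ k)
      (volume.restrict (Ioi 0)) := by
  apply ContinuousOn.aestronglyMeasurable _ measurableSet_Ioi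
  intro ρ hρ
  have hρ' : 0 < ρ := hρ
  apply ContinuousAt.continuousWithinAt
  apply ContinuousAt.mul
  · exact Complex.continuous_ofReal.continuousAt.comp
      (Real.continuousAt_rpow_const _ _ (Or.inl hρ'.ne'))
  · exact ((Complex.continuous_ofReal.continuousAt.add continuousAt_const).inv₀
      (ne_zero hw hρ'.le)).pow k

theorem int_of {t : ℝ} (h0 : 0 < t) (h1 : t < 1) {w : ℂ} (hw : w ∈ slitPlane) :
    IntegrableOn (fun ρ : ℝ => ((ρ ^ (t - 1) : ℝ) : ℂ) * ((ρ : ℂ) + w)⁻¹) (Ioi 0) := by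
  obtain ⟨δ, hδ, h⟩ := lowbd hw
  refine Integrable.mono' ((base_int h0 h1).const_mul δ⁻¹) ?_ ?_
  · have := meas (t := t) hw 1
    simpa using this
  · rw [ae_restrict_iff' measurableSet_Ioi]
    refine Eventually.of_forall fun ρ hρ => ?_
    have hρ' : 0 < ρ := hρ
    rw [norm_mul, norm_inv, Complex.norm_real, Real.norm_of_nonneg (by positivity)]
    have h2 := h ρ hρ'.le
    have h3 : ‖(ρ : ℂ) + w‖⁻¹ ≤ (δ * (1 + ρ))⁻¹ := inv_anti₀ (by positivity) h2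
    calc ρ ^ (t - 1) * ‖(ρ : ℂ) + w‖⁻¹ ≤ ρ ^ (t - 1) * (δ * (1 + ρ))⁻¹ :=
          mul_le_mul_of_nonneg_left h3 (by positivity)
      _ = _ := by rw [mul_inv]; ring

theorem F_deriv {t : ℝ} (h0 : 0 < t) (h1 : t < 1) {w : ℂ} (hw : w ∈ slitPlane) :
    DifferentiableAt ℂ (F t) w := by
  obtain ⟨δ, hδ, h⟩ := lowbd_nhds hw
  have hball : Metric.ball w δ ⊆ slitPlane := by
    intro v hv
    by_contra hc
    rw [mem_slitPlane_iff_not_le_zero, not_not] at hc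
    have h3 := Complex.le_def.1 hc
    have h2 := h v hv (-v.re) (by have := h3.1; simp at this; linarith)
    have h4 : ((-v.re : ℝ) : ℂ) + v = 0 := by
      apply Complex.ext
      · simp
      · simpa using h3.2
    rw [h4, norm_zero] at h2
    have h5 := h3.1
    simp at h5
    have : 0 < δ * (1 + -v.re) := by
      apply mul_pos hδ; linarith
    linarith
  have key := hasDerivAt_integral_of_dominated_loc_of_deriv_le (𝕜 := ℂ)
    (μ := volume.restrict (Ioi (0 : ℝ)))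
    (F := fun (v : ℂ) (ρ : ℝ) => ((ρ ^ (t - 1) : ℝ) : ℂ) * ((ρ : ℂ) + v)⁻¹)
    (F' := fun (v : ℂ) (ρ : ℝ) => ((ρ ^ (t - 1) : ℝ) : ℂ) * (-(((ρ : ℂ) + v)⁻¹ ^ 2)))
    (x₀ := w) (s := Metric.ball w δ) (bound := fun ρ => δ⁻¹ ^ 2 * (ρ ^ (t - 1) * (1 + ρ)⁻¹))
    (Metric.ball_mem_nhds w hδ) ?_ ?_ ?_ ?_ ?_ ?_
  · exact key.2.differentiableAt
  · filter_upwards [Metric.ball_mem_nhds w hδ] with v hv
    have := meas (t := t) (hball hv) 1
    simpa using this
  · exact int_of h0 h1 hw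
  · have := (meas (t := t) hw 2).neg
    refine this.congr (Eventually.of_forall fun ρ => ?_)
    simp
  · rw [ae_restrict_iff' measurableSet_Ioi]
    refine Eventually.of_forall fun ρ hρ v hv => ?_
    have hρ' : 0 < ρ := hρ
    rw [norm_mul, norm_neg, norm_pow, norm_inv, Complex.norm_real,
      Real.norm_of_nonneg (by positivity)]
    have h2 := h v hv ρ hρ'.le
    have h3 : ‖(ρ : ℂ) + v‖⁻¹ ≤ (δ * (1 + ρ))⁻¹ := inv_anti₀ (by positivity) h2
    have h4 : (‖(ρ : ℂ) + v‖⁻¹) ^ 2 ≤ ((δ * (1 + ρ))⁻¹) ^ 2 :=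
      pow_le_pow_left₀ (by positivity) h3 2
    have h5 : ((1 + ρ)⁻¹) ^ 2 ≤ (1 + ρ)⁻¹ := by
      have h6 : (1 + ρ)⁻¹ ≤ 1 := by rw [inv_le_one₀ (by positivity)]; linarith
      have h7 : 0 < (1 + ρ)⁻¹ := by positivity
      nlinarith
    calc ρ ^ (t - 1) * (‖(ρ : ℂ) + v‖⁻¹) ^ 2 ≤ ρ ^ (t - 1) * ((δ * (1 + ρ))⁻¹) ^ 2 :=
          mul_le_mul_of_nonneg_left h4 (by positivity)
      _ = δ⁻¹ ^ 2 * (ρ ^ (t - 1) * ((1 + ρ)⁻¹) ^ 2) := by rw [mul_inv, mul_pow]; ring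
      _ ≤ δ⁻¹ ^ 2 * (ρ ^ (t - 1) * (1 + ρ)⁻¹) := by gcongr
  · exact (base_int h0 h1).const_mul _
  · rw [ae_restrict_iff' measurableSet_Ioi]
    refine Eventually.of_forall fun ρ hρ v hv => ?_
    have hρ' : 0 < ρ := hρ
    have hne := ne_zero (hball hv) hρ'.le
    have h2 : HasDerivAt (fun v : ℂ => ((ρ : ℂ) + v)⁻¹) (-1 / ((ρ : ℂ) + v) ^ 2) v := by
      have := ((hasDerivAt_id v).const_add (ρ : ℂ)).fun_inv hne
      simpa using this
    have h3 := h2.const_mul (((ρ ^ (t - 1) : ℝ) : ℂ))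
    exact h3.congr_deriv (by rw [inv_pow, neg_div, one_div])

theorem F_real {t x : ℝ} (hx : 0 < x) :
    F t (x : ℂ) = ((x ^ (t - 1) : ℝ) : ℂ) * F t 1 := by
  unfold F
  have h1 := integral_comp_mul_left_Ioi
    (fun ρ : ℝ => ((ρ ^ (t - 1) : ℝ) : ℂ) * ((ρ : ℂ) + x)⁻¹) 0 hx
  rw [mul_zero] at h1
  have h2 : ∫ ρ in Ioi (0 : ℝ), ((ρ ^ (t - 1) : ℝ) : ℂ) * ((ρ : ℂ) + x)⁻¹ =
      (x : ℂ) * ∫ ρ in Ioi (0 : ℝ), (((x * ρ) ^ (t - 1) : ℝ) : ℂ) * (((x * ρ : ℝ) : ℂ) + x)⁻¹ := by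
    rw [h1, Complex.real_smul, ← mul_assoc, ← Complex.ofReal_mul, mul_inv_cancel₀ hx.ne']
    simp
  rw [h2, ← integral_const_mul, ← integral_const_mul]
  apply setIntegral_congr_fun measurableSet_Ioi
  intro ρ hρ
  have hρ' : 0 < ρ := hρ
  simp only
  rw [Real.mul_rpow hx.le hρ'.le]
  have hx' : (x : ℂ) ≠ 0 := by exact_mod_cast hx.ne'
  have e : (((x * ρ : ℝ) : ℂ) + x) = x * (ρ + 1) := by push_cast; ring
  rw [e, mul_inv]
  push_cast
  field_simp

theorem F_one {t : ℝ} (h0 : 0 < t) (h1 : t < 1) :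
    F t 1 = Real.pi / Complex.sin (Real.pi * t) := by
  have h2 := Pool.Agent.Helper152.Hilb.cc_integral (w := (t : ℂ) - 1 / 2) (by
    simp [abs_lt]; constructor <;> linarith)
  have e1 : Complex.cos (Real.pi * ((t : ℂ) - 1 / 2)) = Complex.sin (Real.pi * t) := by
    have : (Real.pi : ℂ) * ((t : ℂ) - 1 / 2) = Real.pi * t - Real.pi / 2 := by ring
    rw [this, Complex.cos_sub_pi_div_two]
  rw [e1] at h2
  rw [← h2]
  unfold F
  have e2 : (Ioi (0 : ℝ)) = Real.exp '' univ := by rw [image_univ, Real.range_exp]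
  rw [e2, integral_image_eq_integral_abs_deriv_smul MeasurableSet.univ
    (fun x _ => (Real.hasDerivAt_exp x).hasDerivWithinAt) Real.exp_injective.injOn, setIntegral_univ]
  apply integral_congr_ae
  refine Eventually.of_forall fun u => ?_
  simp only
  have hE := Real.exp_pos u
  have e3 : (Real.exp u) ^ (t - 1) = Real.exp (u * (t - 1)) := by rw [← Real.exp_mul]
  rw [e3, abs_of_pos hE, Pool.Agent.Helper152.Hilb.cc, Complex.real_smul]
  have e4 : (2 * Real.cosh (u / 2) : ℝ) = Real.exp (-(u / 2)) * (Real.exp u + 1) := by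
    rw [Real.cosh_eq, mul_add, ← Real.exp_add]
    have : -(u / 2) + u = u / 2 := by ring
    rw [this]; ring
  have e5 : Complex.exp (((t : ℂ) - 1 / 2) * u) = ((Real.exp ((t - 1 / 2) * u) : ℝ) : ℂ) := by
    push_cast; rfl
  have e6 : Real.exp u * (Real.exp (u * (t - 1)) * (Real.exp u + 1)⁻¹) =
      Real.exp ((t - 1 / 2) * u) / (Real.exp (-(u / 2)) * (Real.exp u + 1)) := by
    have e7 : Real.exp u * Real.exp (u * (t - 1)) * Real.exp (-(u / 2)) =
        Real.exp ((t - 1 / 2) * u) := by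
      rw [← Real.exp_add, ← Real.exp_add]; congr 1; ring
    rw [eq_div_iff (by positivity), ← e7]
    field_simp
  rw [e4, e5]
  exact_mod_cast e6

theorem F_eq {t : ℝ} (h0 : 0 < t) (h1 : t < 1) {w : ℂ} (hw : w ∈ slitPlane) :
    F t w = Real.pi / Complex.sin (Real.pi * t) * w ^ ((t : ℂ) - 1) := by
  have hF : AnalyticOnNhd ℂ (F t) slitPlane :=
    DifferentiableOn.analyticOnNhd (fun v hv => (F_deriv h0 h1 hv).differentiableWithinAt)
      isOpen_slitPlane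
  have hG : AnalyticOnNhd ℂ
      (fun w : ℂ => Real.pi / Complex.sin (Real.pi * t) * w ^ ((t : ℂ) - 1)) slitPlane :=
    DifferentiableOn.analyticOnNhd (fun v hv =>
      ((differentiableAt_id.cpow (differentiableAt_const _) hv).const_mul _).differentiableWithinAt)
      isOpen_slitPlane
  have hpre : IsPreconnected slitPlane :=
    (starConvex_one_slitPlane.isPathConnected one_mem_slitPlane).isConnected.isPreconnected
  have hfr : ∃ᶠ z in 𝓝[≠] (1 : ℂ), F t z =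
      Real.pi / Complex.sin (Real.pi * t) * z ^ ((t : ℂ) - 1) := by
    have hlim : Tendsto (fun n : ℕ => ((1 + 1 / ((n : ℝ) + 1) : ℝ) : ℂ)) atTop (𝓝[≠] 1) := by
      rw [tendsto_nhdsWithin_iff]
      constructor
      · have h2 : Tendsto (fun n : ℕ => (1 + 1 / ((n : ℝ) + 1) : ℝ)) atTop (𝓝 (1 + 0)) :=
          tendsto_const_nhds.add tendsto_one_div_add_atTop_nhds_zero_nat
        rw [add_zero] at h2
        have h5 := (Complex.continuous_ofReal.tendsto (1 : ℝ)).comp h2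
        rw [Complex.ofReal_one] at h5
        exact h5
      · refine Eventually.of_forall fun n => ?_
        simp only [mem_compl_iff, mem_singleton_iff]
        intro h
        have h3 : (1 + 1 / ((n : ℝ) + 1) : ℝ) = 1 := by exact_mod_cast h
        have h4 : 0 < 1 / ((n : ℝ) + 1) := by positivity
        linarith
    apply hlim.frequently
    apply Frequently.of_forall
    intro n
    have hx : 0 < (1 + 1 / ((n : ℝ) + 1) : ℝ) := by positivity
    rw [F_real hx, F_one h0 h1, mul_comm, Complex.ofReal_cpow hx.le]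
    push_cast
    rfl
  exact hF.eqOn_of_preconnected_of_frequently_eq hG hpre one_mem_slitPlane hfr hw

/-- The integral formula for the fractional powers of a complex number off the negative axis. -/
theorem bal {t : ℝ} (h0 : 0 < t) (h1 : t < 1) {w : ℂ} (hw : w ∈ slitPlane) :
    ∫ ρ in Ioi (0 : ℝ), ((ρ ^ (t - 1) : ℝ) : ℂ) * (w / ((ρ : ℂ) + w)) =
      Real.pi / Complex.sin (Real.pi * t) * w ^ (t : ℂ) := by
  have hw0 : w ≠ 0 := slitPlane_ne_zero hw
  have e1 : (fun ρ : ℝ => ((ρ ^ (t - 1) : ℝ) : ℂ) * (w / ((ρ : ℂ) + w))) =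
      fun ρ : ℝ => w * (((ρ ^ (t - 1) : ℝ) : ℂ) * ((ρ : ℂ) + w)⁻¹) := by
    funext ρ; rw [div_eq_mul_inv]; ring
  rw [e1, integral_const_mul]
  change w * F t w = _
  rw [F_eq h0 h1 hw, Complex.cpow_sub _ _ hw0, Complex.cpow_one]
  field_simp

theorem int_bal {t : ℝ} (h0 : 0 < t) (h1 : t < 1) {w : ℂ} (hw : w ∈ slitPlane) :
    IntegrableOn (fun ρ : ℝ => ((ρ ^ (t - 1) : ℝ) : ℂ) * (w / ((ρ : ℂ) + w))) (Ioi 0) := by
  have e1 : (fun ρ : ℝ => ((ρ ^ (t - 1) : ℝ) : ℂ) * (w / ((ρ : ℂ) + w))) =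
      fun ρ : ℝ => w * (((ρ ^ (t - 1) : ℝ) : ℂ) * ((ρ : ℂ) + w)⁻¹) := by
    funext ρ; rw [div_eq_mul_inv]; ring
  rw [e1]
  exact (int_of h0 h1 hw).const_mul w

end

end Pool.Agent.X19.NR
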