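import Mathlib
import Pool.Agent.X19.NR.Scalar

open Set Filter Topology MeasureTheory Complex

namespace Pool.Agent.X19.NR

noncomputable section

/-- `|1 + ρ e^{iφ}|²` -/
def D (k ρ : ℝ) : ℝ := ρ ^ 2 + 2 * k * ρ + 1

theorem D_pos {k ρ : ℝ} (hk : 0 ≤ k) (hρ : 0 ≤ ρ) : 0 < D k ρ := by unfold D; positivity

/-- the real part of `M R` is bounded below -/
theorem re_mul_lower {M R C : ℂ} {r : ℝ} (h : ‖R - C‖ ≤ r) :
    (M * C).re - ‖M‖ * r ≤ (M * R).re := by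
  have h1 : (M * R).re = (M * C).re + (M * (R - C)).re := by
    rw [← Complex.add_re]; congr 1; ring
  have h2 : -‖M * (R - C)‖ ≤ (M * (R - C)).re := (abs_le.1 (Complex.abs_re_le_norm _)).1
  rw [norm_mul] at h2
  have h3 : ‖M‖ * ‖R - C‖ ≤ ‖M‖ * r := mul_le_mul_of_nonneg_left h (norm_nonneg _)
  linarith

variable {k s : ℝ}

/-- the numerator of the kernel -/
def MM (k s ρ : ℝ) : ℂ := ⟨k * (1 + ρ ^ 2) + 2 * ρ, s * (ρ ^ 2 - 1)⟩

theorem MM_norm (hks : k ^ 2 + s ^ 2 = 1) (hk : 0 ≤ k) {ρ : ℝ} (hρ : 0 ≤ ρ) :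
    ‖MM k s ρ‖ = D k ρ := by
  have h1 : ‖MM k s ρ‖ ^ 2 = D k ρ ^ 2 := by
    rw [← normSq_eq_norm_sq, normSq_apply, MM, D]
    linear_combination (ρ ^ 2 - 1) ^ 2 * hks
  exact (pow_left_inj₀ (norm_nonneg _) (D_pos hk hρ).le two_ne_zero).1 h1

/-- `κ = b̄ / (1 + ρ b̄)² = MM / D²` -/
theorem kernel_eq (hks : k ^ 2 + s ^ 2 = 1) (hk : 0 ≤ k) {ρ : ℝ} (hρ : 0 ≤ ρ) :
    (⟨k, -s⟩ : ℂ) / (1 + ρ * (⟨k, -s⟩ : ℂ)) ^ 2 = MM k s ρ / ((D k ρ : ℝ) : ℂ) ^ 2 := by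
  have hD := D_pos hk hρ
  have hne : (1 + ρ * (⟨k, -s⟩ : ℂ)) ≠ 0 := by
    intro h
    have h1 : normSq (1 + ρ * (⟨k, -s⟩ : ℂ)) = D k ρ := by
      rw [normSq_apply, D]
      simp
      linear_combination ρ ^ 2 * hks
    rw [h, map_zero] at h1
    linarith
  have hD' : ((D k ρ : ℝ) : ℂ) ≠ 0 := by exact_mod_cast hD.ne'
  rw [div_eq_div_iff (pow_ne_zero _ hne) (pow_ne_zero _ hD')]
  have e1 : ((D k ρ : ℝ) : ℂ) = (1 + ρ * (⟨k, -s⟩ : ℂ)) * (1 + ρ * (⟨k, s⟩ : ℂ)) := by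
    apply Complex.ext
    · simp [D, pow_two]; linear_combination (-ρ ^ 2) * hks
    · simp; ring
  have e2 : MM k s ρ = (⟨k, -s⟩ : ℂ) * (1 + ρ * (⟨k, s⟩ : ℂ)) ^ 2 := by
    apply Complex.ext
    · simp [MM, pow_two]; linear_combination (-(2 * ρ + k * ρ * ρ)) * hks
    · simp [MM, pow_two]; linear_combination (-s * ρ * ρ) * hks
  rw [e1, e2]
  ring

theorem lower_all (hks : k ^ 2 + s ^ 2 = 1) (hk : 0 < k) {ρ Y : ℝ} (hρ : 0 ≤ ρ) {R : ℂ}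
    (h : ‖R - Y * (⟨k, s⟩ : ℂ) / (2 * k)‖ ≤ Y / (2 * k)) :
    -(Y * (1 - k ^ 2) * ρ ^ 2 / (k * D k ρ ^ 2)) ≤ (MM k s ρ / ((D k ρ : ℝ) : ℂ) ^ 2 * R).re := by
  have hD := D_pos hk.le hρ
  have h1 := re_mul_lower (M := MM k s ρ) h
  rw [MM_norm hks hk.le hρ] at h1
  have e1 : (MM k s ρ * (Y * (⟨k, s⟩ : ℂ) / (2 * k))).re =
      Y * (1 + 2 * ρ * k + ρ ^ 2 * (2 * k ^ 2 - 1)) / (2 * k) := by
    have : (Y * (⟨k, s⟩ : ℂ) / (2 * k)) = ⟨Y * k / (2 * k), Y * s / (2 * k)⟩ := by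
      have h2 : (2 * (k : ℂ)) = ((2 * k : ℝ) : ℂ) := by push_cast; ring
      rw [h2]
      apply Complex.ext
      · rw [Complex.div_ofReal_re]; simp
      · rw [Complex.div_ofReal_im]; simp
    rw [this]
    simp only [MM, Complex.mul_re]
    field_simp
    linear_combination (Y * (1 - ρ ^ 2)) * hks
  rw [e1] at h1
  have e2 : (MM k s ρ / ((D k ρ : ℝ) : ℂ) ^ 2 * R).re = (MM k s ρ * R).re / D k ρ ^ 2 := by
    rw [div_mul_eq_mul_div, ← Complex.ofReal_pow, Complex.div_ofReal_re]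
  rw [e2, le_div_iff₀ (by positivity)]
  refine le_trans (le_of_eq ?_) h1
  unfold D at *
  field_simp
  ring

theorem lower_big (hks : k ^ 2 + s ^ 2 = 1) (hk : 0 < k) {ρ Y : ℝ} (hρ : 1 < ρ) {R : ℂ}
    (h : ‖R - Y * ((ρ ^ 2 + 1) / (ρ ^ 2 - 1) : ℝ)‖ ≤ Y * (2 * ρ / (ρ ^ 2 - 1))) :
    Y * (k * (ρ ^ 2 - 1) / D k ρ ^ 2) ≤ (MM k s ρ / ((D k ρ : ℝ) : ℂ) ^ 2 * R).re := by
  have hρ0 : 0 ≤ ρ := by linarith
  have hD := D_pos hk.le hρ0
  have h1 := re_mul_lower (M := MM k s ρ) h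
  rw [MM_norm hks hk.le hρ0] at h1
  have hρ2 : 0 < ρ ^ 2 - 1 := by nlinarith
  have e1 : (MM k s ρ * (Y * ((ρ ^ 2 + 1) / (ρ ^ 2 - 1) : ℝ))).re =
      (k * (1 + ρ ^ 2) + 2 * ρ) * (Y * ((ρ ^ 2 + 1) / (ρ ^ 2 - 1))) := by
    rw [← Complex.ofReal_mul, Complex.re_mul_ofReal, MM]
  rw [e1] at h1
  have e2 : (MM k s ρ / ((D k ρ : ℝ) : ℂ) ^ 2 * R).re = (MM k s ρ * R).re / D k ρ ^ 2 := by
    rw [div_mul_eq_mul_div, ← Complex.ofReal_pow, Complex.div_ofReal_re]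
  rw [e2, mul_div_assoc', le_div_iff₀ (by positivity), div_mul_cancel₀ _ (by positivity)]
  refine le_trans (le_of_eq ?_) h1
  unfold D at *
  field_simp
  ring

/-- the main integral -/
theorem big_integral (hk : 0 ≤ k) :
    IntegrableOn (fun ρ : ℝ => k * (ρ ^ 2 - 1) / D k ρ ^ 2) (Ioi 1) ∧
    ∫ ρ in Ioi (1 : ℝ), k * (ρ ^ 2 - 1) / D k ρ ^ 2 = k / (2 * (1 + k)) := by
  have hd : ∀ ρ ∈ Ici (1 : ℝ), HasDerivAt (fun ρ : ℝ => -(k * ρ / D k ρ))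
      (k * (ρ ^ 2 - 1) / D k ρ ^ 2) ρ := by
    intro ρ hρ
    have hρ0 : 0 ≤ ρ := le_trans zero_le_one hρ
    have hD := D_pos hk hρ0
    have h1 : HasDerivAt (fun ρ : ℝ => D k ρ) (2 * ρ + 2 * k) ρ := by
      unfold D
      have := (((hasDerivAt_id ρ).pow 2).add ((hasDerivAt_id ρ).const_mul (2 * k))).add_const (1 : ℝ)
      simpa using this
    have h2 : HasDerivAt (fun ρ : ℝ => k * ρ) k ρ := by
      simpa using (hasDerivAt_id ρ).const_mul k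
    have h3 := (h2.div h1 hD.ne').neg
    refine h3.congr_deriv ?_
    unfold D at *
    field_simp
    ring
  have hlim : Tendsto (fun ρ : ℝ => -(k * ρ / D k ρ)) atTop (𝓝 0) := by
    have h1 : Tendsto (fun ρ : ℝ => k / ρ) atTop (𝓝 0) := tendsto_const_nhds.div_atTop tendsto_id
    rw [← neg_zero]
    apply Tendsto.neg
    apply squeeze_zero' (g := fun ρ : ℝ => k / ρ)
    · filter_upwards [eventually_ge_atTop (1 : ℝ)] with ρ hρ
      have := D_pos hk (zero_le_one.trans hρ)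
      positivity
    · filter_upwards [eventually_ge_atTop (1 : ℝ)] with ρ hρ
      have hρ0 : 0 < ρ := lt_of_lt_of_le one_pos hρ
      have := D_pos hk hρ0.le
      rw [div_le_div_iff₀ this hρ0]
      have : ρ ^ 2 ≤ D k ρ := by unfold D; nlinarith [mul_nonneg hk hρ0.le]
      nlinarith
    · exact h1
  have hpos : ∀ ρ ∈ Ioi (1 : ℝ), 0 ≤ k * (ρ ^ 2 - 1) / D k ρ ^ 2 := by
    intro ρ hρ
    have : (1 : ℝ) < ρ := hρ
    have h2 : 0 ≤ ρ ^ 2 - 1 := by nlinarith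
    positivity
  refine ⟨integrableOn_Ioi_deriv_of_nonneg' hd hpos hlim, ?_⟩
  rw [integral_Ioi_of_hasDerivAt_of_nonneg' hd hpos hlim]
  unfold D
  field_simp
  ring

theorem half_int : IntegrableOn (fun ρ : ℝ => ρ ^ (-(1 : ℝ) / 2) * (1 + ρ)⁻¹) (Ioi 0) := by
  have := base_int (t := 1 / 2) (by norm_num) (by norm_num)
  have e : (1 : ℝ) / 2 - 1 = -1 / 2 := by norm_num
  rwa [e] at this

/-- the constant in the error term -/
def M0 : ℝ := ∫ ρ in Ioi (0 : ℝ), ρ ^ (-(1 : ℝ) / 2) * (1 + ρ)⁻¹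

theorem M0_nonneg : 0 ≤ M0 :=
  setIntegral_nonneg measurableSet_Ioi fun ρ hρ => by
    have : (0 : ℝ) < ρ := hρ
    positivity

/-- pointwise estimate of the error -/
theorem err_point {η ρ : ℝ} (hη0 : 0 ≤ η) (hη : η ≤ 1 / 4) (hρ : 0 < ρ) {c u : ℂ} (hu : ‖u‖ = 1)
    (hcu : ‖c - u‖ ≤ η) :
    ‖((ρ ^ (-η) : ℝ) : ℂ) * c - u‖ ≤ 4 * η * (ρ ^ ((1 : ℝ) / 2) + ρ ^ (-(1 : ℝ) / 2)) := by
  set x := Real.log ρ with hx
  have e1 : ∀ p : ℝ, ρ ^ p = Real.exp (p * x) := fun p => by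
    rw [hx, Real.rpow_def_of_pos hρ, mul_comm]
  have h1 : ((ρ ^ (-η) : ℝ) : ℂ) * c - u =
      ((ρ ^ (-η) : ℝ) : ℂ) * (c - u) + (((ρ ^ (-η) - 1 : ℝ)) : ℂ) * u := by push_cast; ring
  have h2 : ‖((ρ ^ (-η) : ℝ) : ℂ) * c - u‖ ≤ ρ ^ (-η) * η + |ρ ^ (-η) - 1| := by
    rw [h1]
    refine (norm_add_le _ _).trans ?_
    rw [norm_mul, norm_mul, hu, mul_one, Complex.norm_real, Complex.norm_real,
      Real.norm_of_nonneg (by positivity), Real.norm_eq_abs]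
    gcongr
  have h3 : ρ ^ (-η) ≤ Real.exp (|x| / 4) := by
    rw [e1]
    apply Real.exp_le_exp.2
    nlinarith [neg_abs_le x, le_abs_self x, abs_nonneg x]
  have h4 : |ρ ^ (-η) - 1| ≤ η * |x| * Real.exp (|x| / 4) := by
    have h5 : |(-η) * x| ≤ |x| / 4 := by
      rw [abs_mul, abs_neg, abs_of_nonneg hη0]; nlinarith [abs_nonneg x]
    have h6 : ∀ z : ℝ, |Real.exp z - 1| ≤ |z| * Real.exp |z| := by
      intro z
      rcases le_total 0 z with hz | hz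
      · rw [abs_of_nonneg hz, abs_of_nonneg (by linarith [Real.add_one_le_exp z])]
        have h7 := Real.add_one_le_exp (-z)
        have h8 : Real.exp (-z) * Real.exp z = 1 := by rw [← Real.exp_add]; simp
        nlinarith [Real.exp_pos z]
      · rw [abs_of_nonpos hz, abs_of_nonpos (by
          have := Real.exp_le_one_iff.2 hz; linarith)]
        have h7 := Real.add_one_le_exp z
        have h8 : 1 ≤ Real.exp (-z) := Real.one_le_exp (by linarith)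
        nlinarith
    rw [e1]
    refine (h6 _).trans ?_
    have h9 : |(-η) * x| = η * |x| := by rw [abs_mul, abs_neg, abs_of_nonneg hη0]
    rw [h9] at h5 ⊢
    gcongr
  have h10 : 1 + |x| ≤ 4 * Real.exp (|x| / 4) := by
    have := Real.add_one_le_exp (|x| / 4)
    linarith [abs_nonneg x]
  have h11 : Real.exp (|x| / 2) ≤ ρ ^ ((1 : ℝ) / 2) + ρ ^ (-(1 : ℝ) / 2) := by
    rw [e1, e1]
    rcases le_total 0 x with h | h
    · rw [abs_of_nonneg h]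
      have : x / 2 = 1 / 2 * x := by ring
      rw [this]
      linarith [Real.exp_pos (-1 / 2 * x)]
    · rw [abs_of_nonpos h]
      have : -x / 2 = -1 / 2 * x := by ring
      rw [this]
      linarith [Real.exp_pos (1 / 2 * x)]
  have h12 : Real.exp (|x| / 4) * Real.exp (|x| / 4) = Real.exp (|x| / 2) := by
    rw [← Real.exp_add]; congr 1; ring
  calc ‖((ρ ^ (-η) : ℝ) : ℂ) * c - u‖ ≤ ρ ^ (-η) * η + |ρ ^ (-η) - 1| := h2
    _ ≤ Real.exp (|x| / 4) * η + η * |x| * Real.exp (|x| / 4) := by gcongr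
    _ = η * ((1 + |x|) * Real.exp (|x| / 4)) := by ring
    _ ≤ η * ((4 * Real.exp (|x| / 4)) * Real.exp (|x| / 4)) := by gcongr
    _ = 4 * η * Real.exp (|x| / 2) := by rw [← h12]; ring
    _ ≤ _ := by gcongr

theorem D_lower (hk : 0 ≤ k) {ρ : ℝ} (hρ : 0 < ρ) :
    (ρ ^ ((1 : ℝ) / 2) + ρ ^ (-(1 : ℝ) / 2)) / D k ρ ≤ 4 * (ρ ^ (-(1 : ℝ) / 2) * (1 + ρ)⁻¹) := by
  have hD := D_pos hk hρ.le
  have e : ρ ^ ((1 : ℝ) / 2) = ρ ^ (-(1 : ℝ) / 2) * ρ := by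
    nth_rw 3 [← Real.rpow_one ρ]
    rw [← Real.rpow_add hρ]; norm_num
  have h0 : 0 < ρ ^ (-(1 : ℝ) / 2) := by positivity
  rw [e]
  set A := ρ ^ (-(1 : ℝ) / 2)
  rw [div_le_iff₀ hD]
  have h1 : 1 + ρ ^ 2 ≤ D k ρ := by unfold D; nlinarith [mul_nonneg hk hρ.le]
  have h2 : (1 + ρ) ^ 2 ≤ 2 * D k ρ := by nlinarith [sq_nonneg (1 - ρ)]
  have h3 : A * ρ + A = A * (1 + ρ) := by ring
  rw [h3]
  have h4 : 4 * (A * (1 + ρ)⁻¹) * D k ρ = A * (4 * D k ρ / (1 + ρ)) := by field_simp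
  rw [h4]
  apply mul_le_mul_of_nonneg_left _ h0.le
  rw [le_div_iff₀ (by positivity)]
  nlinarith

end

end Pool.Agent.X19.NR
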