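import Mathlib
import Pool.Agent.X19.NR.Kernel

open Set Filter Topology MeasureTheory Complex

namespace Pool.Agent.X19.NR

noncomputable section

variable {k s : ℝ}

theorem ne_one_add (hks : k ^ 2 + s ^ 2 = 1) (hk : 0 ≤ k) {ρ : ℝ} (hρ : 0 ≤ ρ) :
    (1 + ρ * (⟨k, -s⟩ : ℂ)) ≠ 0 := by
  have hD := D_pos hk hρ
  intro h
  have h1 : normSq (1 + ρ * (⟨k, -s⟩ : ℂ)) = D k ρ := by
    rw [normSq_apply, D]
    simp
    linear_combination ρ ^ 2 * hks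
  rw [h, map_zero] at h1
  linarith

theorem norm_one_add_sq (hks : k ^ 2 + s ^ 2 = 1) {ρ : ℝ} :
    ‖(1 + ρ * (⟨k, -s⟩ : ℂ)) ^ 2‖ = D k ρ := by
  have h1 : normSq (1 + ρ * (⟨k, -s⟩ : ℂ)) = D k ρ := by
    rw [normSq_apply, D]
    simp
    linear_combination ρ ^ 2 * hks
  rw [norm_pow, ← normSq_eq_norm_sq, h1]

/-- the pointwise lower bound -/
def low (k η Y ρ : ℝ) : ℝ :=
  (Ioc (0 : ℝ) 1).indicator (fun _ => -(Y * (1 - k) / (4 * k * (1 + k)))) ρ +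
  (Ioi (1 : ℝ)).indicator (fun ρ => Y * (k * (ρ ^ 2 - 1) / D k ρ ^ 2)) ρ -
  32 * η * Y * (ρ ^ (-(1 : ℝ) / 2) * (1 + ρ)⁻¹)

theorem low_int (hk : 0 ≤ k) {η Y : ℝ} : IntegrableOn (low k η Y) (Ioi 0) ∧
    ∫ ρ in Ioi (0 : ℝ), low k η Y ρ =
      -(Y * (1 - k) / (4 * k * (1 + k))) + Y * (k / (2 * (1 + k))) - 32 * η * Y * M0 := by
  obtain ⟨hb1, hb2⟩ := big_integral hk
  have i1 : IntegrableOn ((Ioc (0 : ℝ) 1).indicator (fun _ => -(Y * (1 - k) / (4 * k * (1 + k))))) (Ioi 0) := by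
    rw [← Ioc_union_Ioi_eq_Ioi (zero_le_one (α := ℝ))]
    apply Integrable.integrableOn
    rw [integrable_indicator_iff measurableSet_Ioc]
    simp
  have i2 : IntegrableOn ((Ioi (1 : ℝ)).indicator (fun ρ => Y * (k * (ρ ^ 2 - 1) / D k ρ ^ 2))) (Ioi 0) := by
    apply Integrable.integrableOn
    rw [integrable_indicator_iff measurableSet_Ioi]
    exact hb1.const_mul _
  have i3 : IntegrableOn (fun ρ : ℝ => 32 * η * Y * (ρ ^ (-(1 : ℝ) / 2) * (1 + ρ)⁻¹)) (Ioi 0) :=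
    half_int.const_mul _
  refine ⟨(i1.add i2).sub i3, ?_⟩
  have e := integral_sub (μ := volume.restrict (Ioi (0 : ℝ))) (i1.add i2) i3
  have e' := integral_add (μ := volume.restrict (Ioi (0 : ℝ))) i1 i2
  have e1 : ∫ ρ in Ioi (0 : ℝ), (Ioc (0 : ℝ) 1).indicator (fun _ => -(Y * (1 - k) / (4 * k * (1 + k)))) ρ =
      -(Y * (1 - k) / (4 * k * (1 + k))) := by
    rw [setIntegral_indicator measurableSet_Ioc]
    have : Ioi (0 : ℝ) ∩ Ioc 0 1 = Ioc 0 1 := by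
      rw [inter_eq_right]; exact fun x hx => hx.1
    rw [this]
    simp
  have e2 : ∫ ρ in Ioi (0 : ℝ), (Ioi (1 : ℝ)).indicator (fun ρ => Y * (k * (ρ ^ 2 - 1) / D k ρ ^ 2)) ρ =
      Y * (k / (2 * (1 + k))) := by
    rw [setIntegral_indicator measurableSet_Ioi]
    have : Ioi (0 : ℝ) ∩ Ioi 1 = Ioi 1 := by
      rw [inter_eq_right]; exact Ioi_subset_Ioi zero_le_one
    rw [this, integral_const_mul, hb2]
  have e3 : ∫ ρ in Ioi (0 : ℝ), 32 * η * Y * (ρ ^ (-(1 : ℝ) / 2) * (1 + ρ)⁻¹) = 32 * η * Y * M0 := by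
    rw [integral_const_mul, M0]
  rw [← e1, ← e2, ← e3, ← e']
  exact e

theorem low_le (hks : k ^ 2 + s ^ 2 = 1) (hk : 1 / 2 ≤ k) {η Y ρ : ℝ} (hη0 : 0 ≤ η) (hη : η ≤ 1 / 4)
    (hY : 0 ≤ Y) (hρ : 0 < ρ) {c : ℂ} (hc : ‖c - ⟨k, -s⟩‖ ≤ η) {R : ℂ}
    (h1 : ‖R - Y * (⟨k, s⟩ : ℂ) / (2 * k)‖ ≤ Y / (2 * k))
    (h2 : 1 < ρ → ‖R - Y * ((ρ ^ 2 + 1) / (ρ ^ 2 - 1) : ℝ)‖ ≤ Y * (2 * ρ / (ρ ^ 2 - 1))) :
    low k η Y ρ ≤
      ((((ρ ^ (-η) : ℝ) : ℂ) * c) * (R / (1 + ρ * (⟨k, -s⟩ : ℂ)) ^ 2)).re := by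
  have hk0 : 0 < k := by linarith
  have hk1 : k ≤ 1 := by nlinarith [sq_nonneg s]
  have hD := D_pos hk0.le hρ.le
  have hu : ‖(⟨k, -s⟩ : ℂ)‖ = 1 := by
    have : ‖(⟨k, -s⟩ : ℂ)‖ ^ 2 = 1 := by
      rw [← normSq_eq_norm_sq, normSq_apply]; simp only; linarith
    nlinarith [norm_nonneg (⟨k, -s⟩ : ℂ)]
  have hu' : ‖(⟨k, s⟩ : ℂ)‖ = 1 := by
    have : ‖(⟨k, s⟩ : ℂ)‖ ^ 2 = 1 := by
      rw [← normSq_eq_norm_sq, normSq_apply]; simp only; linarith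
    nlinarith [norm_nonneg (⟨k, s⟩ : ℂ)]
  have hR : ‖R‖ ≤ 2 * Y := by
    have e : R = (R - Y * (⟨k, s⟩ : ℂ) / (2 * k)) + Y * (⟨k, s⟩ : ℂ) / (2 * k) := by ring
    rw [e]
    refine (norm_add_le _ _).trans ?_
    have e2 : ‖Y * (⟨k, s⟩ : ℂ) / (2 * k)‖ = Y / (2 * k) := by
      rw [norm_div, norm_mul, hu', norm_mul, Complex.norm_real, Complex.norm_real,
        Real.norm_of_nonneg hY, Real.norm_of_nonneg hk0.le]
      simp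
    rw [e2]
    have e3 : Y / (2 * k) ≤ Y := div_le_self hY (by linarith)
    linarith
  have split : (((ρ ^ (-η) : ℝ) : ℂ) * c) * (R / (1 + ρ * (⟨k, -s⟩ : ℂ)) ^ 2) =
      MM k s ρ / ((D k ρ : ℝ) : ℂ) ^ 2 * R +
      ((((ρ ^ (-η) : ℝ) : ℂ) * c) - (⟨k, -s⟩ : ℂ)) * (R / (1 + ρ * (⟨k, -s⟩ : ℂ)) ^ 2) := by
    rw [← kernel_eq hks hk0.le hρ.le]
    ring
  rw [split, Complex.add_re]
  have herr : -(32 * η * Y * (ρ ^ (-(1 : ℝ) / 2) * (1 + ρ)⁻¹)) ≤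
      (((((ρ ^ (-η) : ℝ) : ℂ) * c) - (⟨k, -s⟩ : ℂ)) * (R / (1 + ρ * (⟨k, -s⟩ : ℂ)) ^ 2)).re := by
    refine le_trans ?_ (abs_le.1 (Complex.abs_re_le_norm _)).1
    rw [neg_le_neg_iff, norm_mul, norm_div, norm_one_add_sq hks]
    have h3 := err_point hη0 hη hρ hu hc
    have h4 := D_lower hk0.le hρ
    calc ‖((ρ ^ (-η) : ℝ) : ℂ) * c - (⟨k, -s⟩ : ℂ)‖ * (‖R‖ / D k ρ)
        ≤ (4 * η * (ρ ^ ((1 : ℝ) / 2) + ρ ^ (-(1 : ℝ) / 2))) * (2 * Y / D k ρ) := by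
          apply mul_le_mul h3 _ (by positivity) (by positivity)
          gcongr
      _ = 8 * η * Y * ((ρ ^ ((1 : ℝ) / 2) + ρ ^ (-(1 : ℝ) / 2)) / D k ρ) := by ring
      _ ≤ 8 * η * Y * (4 * (ρ ^ (-(1 : ℝ) / 2) * (1 + ρ)⁻¹)) := by gcongr
      _ = _ := by ring
  unfold low
  rcases le_or_gt ρ 1 with hle | hgt
  · have m1 : ρ ∈ Ioc (0 : ℝ) 1 := ⟨hρ, hle⟩
    have m2 : ρ ∉ Ioi (1 : ℝ) := by simpa using hle
    rw [indicator_of_mem m1, indicator_of_notMem m2]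
    have h5 := lower_all hks hk0 hρ.le h1
    have h6 : Y * (1 - k ^ 2) * ρ ^ 2 / (k * D k ρ ^ 2) ≤ Y * (1 - k) / (4 * k * (1 + k)) := by
      have h7 : 2 * ρ * (1 + k) ≤ D k ρ := by unfold D; nlinarith [sq_nonneg (ρ - 1)]
      have h8 : (2 * ρ * (1 + k)) ^ 2 ≤ D k ρ ^ 2 := pow_le_pow_left₀ (by positivity) h7 2
      rw [div_le_div_iff₀ (by positivity) (by positivity)]
      have h9 : 0 ≤ Y * (1 - k) * k := by
        apply mul_nonneg (mul_nonneg hY (by linarith)) hk0.le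
      nlinarith [mul_le_mul_of_nonneg_left h8 h9]
    linarith
  · have m1 : ρ ∉ Ioc (0 : ℝ) 1 := by simp [hgt]
    have m2 : ρ ∈ Ioi (1 : ℝ) := hgt
    rw [indicator_of_notMem m1, indicator_of_mem m2]
    have h5 := lower_big hks hk0 hgt (h2 hgt)
    linarith

theorem integrand_int (hks : k ^ 2 + s ^ 2 = 1) (hk : 1 / 2 ≤ k) {q Y : ℝ} (hq0 : 0 < q) (hq1 : q < 1)
    (hY : 0 ≤ Y) {c : ℂ} {R : ℝ → ℂ} (hR : ContinuousOn R (Ioi 0))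
    (h1 : ∀ ρ : ℝ, 0 < ρ → ‖R ρ - Y * (⟨k, s⟩ : ℂ) / (2 * k)‖ ≤ Y / (2 * k)) :
    IntegrableOn (fun ρ : ℝ => (((ρ ^ (q - 1) : ℝ) : ℂ) * c) *
      (R ρ / (1 + ρ * (⟨k, -s⟩ : ℂ)) ^ 2)) (Ioi 0) := by
  have hk0 : 0 < k := by linarith
  have hu' : ‖(⟨k, s⟩ : ℂ)‖ = 1 := by
    have : ‖(⟨k, s⟩ : ℂ)‖ ^ 2 = 1 := by
      rw [← normSq_eq_norm_sq, normSq_apply]; simp only; linarith
    nlinarith [norm_nonneg (⟨k, s⟩ : ℂ)]
  refine Integrable.mono' ((base_int hq0 hq1).const_mul (4 * Y * ‖c‖)) ?_ ?_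
  · apply ContinuousOn.aestronglyMeasurable _ measurableSet_Ioi
    apply ContinuousOn.mul
    · apply ContinuousOn.mul _ continuousOn_const
      intro ρ hρ
      have hρ' : 0 < ρ := hρ
      apply ContinuousAt.continuousWithinAt
      exact Complex.continuous_ofReal.continuousAt.comp
        (Real.continuousAt_rpow_const _ _ (Or.inl hρ'.ne'))
    · apply hR.div
      · fun_prop
      · intro ρ hρ
        exact pow_ne_zero _ (ne_one_add hks hk0.le (le_of_lt hρ))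
  · rw [ae_restrict_iff' measurableSet_Ioi]
    refine Eventually.of_forall fun ρ hρ => ?_
    have hρ' : 0 < ρ := hρ
    have hD := D_pos hk0.le hρ'.le
    have hRb : ‖R ρ‖ ≤ 2 * Y := by
      have e : R ρ = (R ρ - Y * (⟨k, s⟩ : ℂ) / (2 * k)) + Y * (⟨k, s⟩ : ℂ) / (2 * k) := by ring
      rw [e]
      refine (norm_add_le _ _).trans ?_
      have e2 : ‖Y * (⟨k, s⟩ : ℂ) / (2 * k)‖ = Y / (2 * k) := by
        rw [norm_div, norm_mul, hu', norm_mul, Complex.norm_real, Complex.norm_real,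
          Real.norm_of_nonneg hY, Real.norm_of_nonneg hk0.le]
        simp
      rw [e2]
      have e3 : Y / (2 * k) ≤ Y := div_le_self hY (by linarith)
      linarith [h1 ρ hρ']
    rw [norm_mul, norm_mul, norm_div, norm_one_add_sq hks, Complex.norm_real,
      Real.norm_of_nonneg (by positivity)]
    have h3 : 1 / D k ρ ≤ 2 * (1 + ρ)⁻¹ := by
      rw [div_le_iff₀ hD]
      have h4 : 1 + ρ ^ 2 ≤ D k ρ := by unfold D; nlinarith [mul_nonneg hk0.le hρ'.le]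
      have h5 : (1 + ρ) ≤ 2 * D k ρ := by nlinarith [sq_nonneg (1 - 2 * ρ)]
      have h6 : 2 * (1 + ρ)⁻¹ * D k ρ = (2 * D k ρ) / (1 + ρ) := by field_simp
      rw [h6, le_div_iff₀ (by positivity)]
      linarith
    calc ρ ^ (q - 1) * ‖c‖ * (‖R ρ‖ / D k ρ) ≤ ρ ^ (q - 1) * ‖c‖ * (2 * Y * (1 / D k ρ)) := by
          rw [mul_one_div]; gcongr
      _ ≤ ρ ^ (q - 1) * ‖c‖ * (2 * Y * (2 * (1 + ρ)⁻¹)) := by gcongr
      _ = _ := by ring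

/-- **The scalar step**. -/
theorem step (hks : k ^ 2 + s ^ 2 = 1) (hk : 7 / 10 ≤ k) {q Y : ℝ} (hq1 : q < 1)
    (hq : 1 - q ≤ 1 / (256 * (M0 + 1)))
    (hY : 0 ≤ Y) {c : ℂ} (hc : ‖c - ⟨k, -s⟩‖ ≤ 1 - q) {R : ℝ → ℂ} (hR : ContinuousOn R (Ioi 0))
    (h1 : ∀ ρ : ℝ, 0 < ρ → ‖R ρ - Y * (⟨k, s⟩ : ℂ) / (2 * k)‖ ≤ Y / (2 * k))
    (h2 : ∀ ρ : ℝ, 1 < ρ → ‖R ρ - Y * ((ρ ^ 2 + 1) / (ρ ^ 2 - 1) : ℝ)‖ ≤ Y * (2 * ρ / (ρ ^ 2 - 1))) :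
    0 ≤ (∫ ρ in Ioi (0 : ℝ), (((ρ ^ (q - 1) : ℝ) : ℂ) * c) *
      (R ρ / (1 + ρ * (⟨k, -s⟩ : ℂ)) ^ 2)).re := by
  have hM := M0_nonneg
  have hη4 : 1 - q ≤ 1 / 4 := by
    refine hq.trans ?_
    rw [div_le_div_iff₀ (by positivity) (by norm_num)]
    linarith
  have hq0 : 0 < q := by linarith
  have hk2 : 1 / 2 ≤ k := by linarith
  have hI := integrand_int hks hk2 hq0 hq1 hY (c := c) hR h1
  obtain ⟨hL, hLe⟩ := low_int (k := k) (by linarith : (0 : ℝ) ≤ k) (η := 1 - q) (Y := Y)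
  have hre := integral_re (f := fun ρ : ℝ => (((ρ ^ (q - 1) : ℝ) : ℂ) * c) *
      (R ρ / (1 + ρ * (⟨k, -s⟩ : ℂ)) ^ 2)) (μ := volume.restrict (Ioi (0 : ℝ))) hI
  have hre' : (∫ ρ in Ioi (0 : ℝ), (((ρ ^ (q - 1) : ℝ) : ℂ) * c) *
      (R ρ / (1 + ρ * (⟨k, -s⟩ : ℂ)) ^ 2)).re = ∫ ρ in Ioi (0 : ℝ),
      ((((ρ ^ (q - 1) : ℝ) : ℂ) * c) * (R ρ / (1 + ρ * (⟨k, -s⟩ : ℂ)) ^ 2)).re := hre.symm
  rw [hre']
  have hmono : ∫ ρ in Ioi (0 : ℝ), low k (1 - q) Y ρ ≤ ∫ ρ in Ioi (0 : ℝ),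
      ((((ρ ^ (q - 1) : ℝ) : ℂ) * c) * (R ρ / (1 + ρ * (⟨k, -s⟩ : ℂ)) ^ 2)).re := by
    apply setIntegral_mono_on hL hI.re measurableSet_Ioi
    intro ρ hρ
    have := low_le hks hk2 (by linarith : 0 ≤ 1 - q) hη4 hY hρ hc (h1 ρ hρ) (h2 ρ)
    rw [neg_sub] at this
    exact this
  refine le_trans ?_ hmono
  rw [hLe]
  have hk0 : 0 < k := by linarith
  have e1 : -(Y * (1 - k) / (4 * k * (1 + k))) + Y * (k / (2 * (1 + k))) =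
      Y * ((2 * k - 1) / (4 * k)) := by
    field_simp
    ring
  rw [e1]
  have e2 : (1 : ℝ) / 8 ≤ (2 * k - 1) / (4 * k) := by
    rw [div_le_div_iff₀ (by norm_num) (by positivity)]
    linarith
  have e3 : 32 * (1 - q) * M0 ≤ 1 / 8 := by
    have : (1 - q) * M0 ≤ 1 / 256 := by
      calc (1 - q) * M0 ≤ 1 / (256 * (M0 + 1)) * M0 := by gcongr
        _ ≤ 1 / 256 := by
          rw [div_mul_eq_mul_div, div_le_div_iff₀ (by positivity) (by norm_num)]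
          linarith
    linarith
  have e4 : 32 * (1 - q) * Y * M0 = Y * (32 * (1 - q) * M0) := by ring
  rw [e4, ← mul_sub]
  apply mul_nonneg hY
  linarith

end

end Pool.Agent.X19.NR
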