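import Mathlib
import Pool.Agent.X19.NR.Step
import Pool.Agent.X19.NR.Oper

open Set Filter Topology MeasureTheory Complex

namespace Pool.Agent.X19.NR

noncomputable section

variable {H : Type*} [NormedAddCommGroup H] [InnerProductSpace ℂ H] {ι : Type*} [Fintype ι]

/-- the operator with eigenbasis `e` and eigenvalues `f` -/
def Op (e : Module.Basis ι ℂ H) (f : ι → ℂ) : H →ₗ[ℂ] H := e.constr ℂ (fun i => f i • e i)

theorem Op_apply (e : Module.Basis ι ℂ H) (f : ι → ℂ) (v : H) :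
    Op e f v = ∑ i, e.repr v i • f i • e i := by
  unfold Op
  rw [Module.Basis.constr_apply_fintype]
  rfl

theorem Op_basis (e : Module.Basis ι ℂ H) (f : ι → ℂ) (i : ι) : Op e f (e i) = f i • e i := by
  unfold Op
  rw [Module.Basis.constr_basis]

theorem Op_comp (e : Module.Basis ι ℂ H) (f g : ι → ℂ) (v : H) :
    Op e f (Op e g v) = Op e (fun i => f i * g i) v := by
  have : (Op e f) ∘ₗ (Op e g) = Op e (fun i => f i * g i) := by
    apply e.ext
    intro i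
    rw [LinearMap.comp_apply, Op_basis, map_smul, Op_basis, Op_basis, smul_smul, mul_comm]
  exact LinearMap.congr_fun this v

theorem Op_one (e : Module.Basis ι ℂ H) (v : H) : Op e (fun _ => 1) v = v := by
  have : Op e (fun _ => 1) = LinearMap.id := by
    apply e.ext
    intro i
    rw [Op_basis, one_smul]; rfl
  exact LinearMap.congr_fun this v

theorem Op_add (e : Module.Basis ι ℂ H) (f g : ι → ℂ) (v : H) :
    Op e (fun i => f i + g i) v = Op e f v + Op e g v := by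
  have : Op e (fun i => f i + g i) = Op e f + Op e g := by
    apply e.ext
    intro i
    rw [LinearMap.add_apply, Op_basis, Op_basis, Op_basis, add_smul]
  exact LinearMap.congr_fun this v

theorem Op_smul (e : Module.Basis ι ℂ H) (c : ℂ) (f : ι → ℂ) (v : H) :
    Op e (fun i => c * f i) v = c • Op e f v := by
  have : Op e (fun i => c * f i) = c • Op e f := by
    apply e.ext
    intro i
    rw [LinearMap.smul_apply, Op_basis, Op_basis, smul_smul]
  exact LinearMap.congr_fun this v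

theorem inner_Op (e : Module.Basis ι ℂ H) (f : ι → ℂ) (u v : H) :
    (inner ℂ (u) (Op e f v)) = ∑ i, (e.repr v i * (inner ℂ (u) (e i))) * f i := by
  rw [Op_apply, inner_sum]
  apply Finset.sum_congr rfl
  intro i _
  rw [inner_smul_right, inner_smul_right]
  ring

/-- the resolvent identity -/
theorem Op_res (e : Module.Basis ι ℂ H) (μ : ι → ℂ) (σ : ℂ) (hσ : ∀ i, σ + μ i ≠ 0) (v : H) :
    σ • Op e (fun i => 1 / (σ + μ i)) v + Op e μ (Op e (fun i => 1 / (σ + μ i)) v) = v := by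
  rw [Op_comp, ← Op_smul, ← Op_add]
  conv_rhs => rw [← Op_one e v]
  congr 2
  funext i
  have := hσ i
  field_simp

theorem Op_res' (e : Module.Basis ι ℂ H) (μ : ι → ℂ) (σ : ℂ) (hσ : ∀ i, σ + μ i ≠ 0) (v : H)
    (hv : σ • v + Op e μ v = 0) : v = 0 := by
  have h1 : Op e (fun i => 1 / (σ + μ i)) (σ • v + Op e μ v) = v := by
    rw [map_add, map_smul, Op_comp, ← Op_smul, ← Op_add]
    conv_rhs => rw [← Op_one e v]
    congr 2
    funext i
    have := hσ i
    field_simp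
  rw [hv, map_zero] at h1
  exact h1.symm

/-- the spectrum is in the unit disc -/
theorem eig_le (e : Module.Basis ι ℂ H) (μ : ι → ℂ) (hnr : ∀ v, ‖(inner ℂ (v) (Op e μ v))‖ ≤ ‖v‖ ^ 2) (i : ι) :
    ‖μ i‖ ≤ 1 := by
  have h1 := hnr (e i)
  rw [Op_basis, inner_smul_right, inner_self_ofReal, norm_mul, Complex.norm_real,
    Real.norm_of_nonneg (by positivity)] at h1
  have h2 : 0 < ‖e i‖ ^ 2 := by
    have := norm_pos_iff.2 (e.ne_zero i)
    positivity
  exact le_of_mul_le_mul_right (by linarith) h2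

/-- power of a quotient by a unimodular number -/
theorem cpow_rot {w : ℂ} (hw : 0 < w.re) {β : ℝ} (hβ : |β| ≤ Real.pi / 2) (q : ℂ) :
    (w * Complex.exp (-(β : ℂ) * I)) ^ q = w ^ q * Complex.exp (-(β : ℂ) * I * q) := by
  have hw0 : w ≠ 0 := by rintro rfl; simp at hw
  have harg := abs_lt.1 (Complex.abs_arg_lt_pi_div_two_iff.2 (Or.inl hw))
  have hβ' := abs_le.1 hβ
  have hpi := Real.pi_pos
  have e1 : Complex.arg (Complex.exp (-(β : ℂ) * I)) = -β := by
    have := Complex.arg_exp_mul_I (-β)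
    rw [Complex.ofReal_neg] at this
    rw [this, toIocMod_eq_self]
    constructor <;> linarith [hβ'.1, hβ'.2]
  have e2 : Complex.log (Complex.exp (-(β : ℂ) * I)) = -(β : ℂ) * I := by
    apply Complex.log_exp
    · simp; linarith [hβ'.1, hβ'.2]
    · simp; linarith [hβ'.1, hβ'.2]
  have e3 : Complex.log (w * Complex.exp (-(β : ℂ) * I)) = Complex.log w + -(β : ℂ) * I := by
    rw [Complex.log_mul hw0 (Complex.exp_ne_zero _), e2]
    rw [e1]
    constructor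
    · linarith [harg.1, hβ'.2]
    · linarith [harg.2, hβ'.1]
  rw [Complex.cpow_def_of_ne_zero (mul_ne_zero hw0 (Complex.exp_ne_zero _)), e3,
    Complex.cpow_def_of_ne_zero hw0, ← Complex.exp_add]
  congr 1
  ring

theorem exp_diff {β q : ℝ} (hβ : |β| ≤ 1) (hq : q ≤ 1) :
    ‖Complex.exp (-(β : ℂ) * I * q) - Complex.exp (-(β : ℂ) * I)‖ ≤ 1 - q := by
  have e : Complex.exp (-(β : ℂ) * I * q) - Complex.exp (-(β : ℂ) * I) =
      Complex.exp (((-β : ℝ) : ℂ) * I) * (Complex.exp (I * ((β * (1 - q) : ℝ) : ℂ)) - 1) := by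
    rw [mul_sub, ← Complex.exp_add, mul_one]
    congr 2
    · push_cast; ring
    · push_cast; ring
  rw [e, norm_mul, Complex.norm_exp_ofReal_mul_I, one_mul]
  refine (Real.norm_exp_I_mul_ofReal_sub_one_le).trans ?_
  rw [Real.norm_eq_abs, abs_mul, abs_of_nonneg (by linarith : 0 ≤ 1 - q)]
  nlinarith

theorem slit_rot {w : ℂ} (hw : 0 < w.re) {k s : ℝ} (hk : 0 < k) (hks : k ^ 2 + s ^ 2 = 1) :
    w * (⟨k, -s⟩ : ℂ) ∈ slitPlane := by
  rw [mem_slitPlane_iff_not_le_zero]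
  intro h
  have h3 := Complex.le_def.1 h
  have e : w = (w * (⟨k, -s⟩ : ℂ)) * (⟨k, s⟩ : ℂ) := by
    have : (⟨k, -s⟩ : ℂ) * (⟨k, s⟩ : ℂ) = 1 := by
      apply Complex.ext
      · simp; linarith
      · simp; ring
    rw [mul_assoc, this, mul_one]
  have h4 := congrArg Complex.re e
  rw [Complex.mul_re] at h4
  have h5 := h3.2
  have h6 := h3.1
  rw [Complex.zero_im] at h5
  rw [Complex.zero_re] at h6
  rw [h5, zero_mul, sub_zero] at h4
  simp only at h4
  nlinarith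

theorem sum_identity (e : Module.Basis ι ℂ H) (μ : ι → ℂ) {x y : H} (hx : ‖x‖ = 1) {a b b' σ ρ : ℂ}
    (hb : b ≠ 0) (hbb : b' = b⁻¹) (hab : a = b ^ 2) (hσ : σ = ρ * b) (hσi : ∀ i, σ + μ i ≠ 0)
    (hσa : σ + a ≠ 0)
    (hT : (inner ℂ (x) (Op e (fun i => 1 / (σ + μ i)) x)) = 1 / (σ + a) -
      a ^ 2 * (inner ℂ (y) (Op e (fun i => 1 / (σ + μ i)) y)) / (σ + a) ^ 2) :
    ∑ i, (e.repr x i * (inner ℂ (x) (e i))) * ((μ i * b') / (ρ + μ i * b')) =
      b / (ρ + b) + (σ * (inner ℂ (y) (Op e (fun i => 1 / (σ + μ i)) y))) / (1 + ρ * b') ^ 2 := by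
  have h1 : ∀ i, (μ i * b') / (ρ + μ i * b') = 1 - σ * (1 / (σ + μ i)) := by
    intro i
    have h2 := hσi i
    have h3 : ρ + μ i * b' ≠ 0 := by
      intro h4
      apply h2
      have : σ + μ i = (ρ + μ i * b') * b := by rw [hσ, hbb]; field_simp
      rw [this, h4, zero_mul]
    have h5 : (ρ + μ i * b') * b = σ + μ i := by rw [hσ, hbb]; field_simp
    rw [div_eq_iff h3]
    have h6 : (1 - σ * (1 / (σ + μ i))) = μ i / (σ + μ i) := by field_simp; ring
    rw [h6, div_mul_eq_mul_div, eq_div_iff h2, ← h5, hbb]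
    field_simp
  have h2 : ∑ i, (e.repr x i * (inner ℂ (x) (e i))) * ((μ i * b') / (ρ + μ i * b')) =
      (inner ℂ (x) (Op e (fun _ => 1) x)) - σ * (inner ℂ (x) (Op e (fun i => 1 / (σ + μ i)) x)) := by
    rw [inner_Op, inner_Op, Finset.mul_sum, ← Finset.sum_sub_distrib]
    apply Finset.sum_congr rfl
    intro i _
    rw [h1 i]
    ring
  have hxx : (inner ℂ (x) (x)) = (1 : ℂ) := by rw [inner_self_ofReal, hx]; simp
  rw [h2, Op_one, hxx, hT]
  set r := (inner ℂ (y) (Op e (fun i => 1 / (σ + μ i)) y)) with hr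
  clear_value r
  have h3 : ρ + b ≠ 0 := by
    intro h4
    apply hσa
    rw [hσ, hab]
    linear_combination b * h4
  have h4 : σ + a = b * (ρ + b) := by rw [hσ, hab]; ring
  have h5 : 1 + ρ * b' = (ρ + b) / b := by rw [hbb]; field_simp; ring
  rw [h4, h5, hσ, hab]
  field_simp
  ring

/-- **One step**: at a maximiser the numerical radius of a power close to one does not drop. -/
theorem fin_step (e : Module.Basis ι ℂ H) (μ : ι → ℂ) (hμ : ∀ i, 0 < (μ i).re)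
    (hacc : ∀ v, 0 ≤ ((inner ℂ (v) (Op e μ v))).re) (hnr : ∀ v, ‖(inner ℂ (v) (Op e μ v))‖ ≤ ‖v‖ ^ 2)
    {x : H} (hx : ‖x‖ = 1) (hx1 : ‖(inner ℂ (x) (Op e μ x))‖ = 1) {q : ℝ} (hq1 : q < 1)
    (hq : 1 - q ≤ 1 / (256 * (M0 + 1))) :
    1 ≤ ‖(inner ℂ (x) (Op e (fun i => μ i ^ (q : ℂ)) x))‖ := by
  have hM := M0_nonneg
  have hη4 : 1 - q ≤ 1 / 4 := by
    refine hq.trans ?_
    rw [div_le_div_iff₀ (by positivity) (by norm_num)]
    linarith
  have hq0 : 0 < q := by linarith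
  obtain ⟨y, hy⟩ := resolvent_formula (Op e μ) hnr hx rfl hx1
  set a := (inner ℂ (x) (Op e μ x)) with ha
  have hare : 0 ≤ a.re := hacc x
  set β := Complex.arg a / 2 with hβd
  have hpi := Real.pi_pos
  have hpi4 : Real.pi < 4 := Real.pi_lt_four
  have hβ : |β| ≤ Real.pi / 4 := by
    have h1 := Complex.abs_arg_le_pi_div_two_iff.2 hare
    rw [hβd, abs_div, abs_two]
    linarith
  have hβ1 : |β| ≤ 1 := by linarith
  have hβ2 : |β| ≤ Real.pi / 2 := by linarith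
  set k := Real.cos β with hk
  set s := Real.sin β with hs
  have hks : k ^ 2 + s ^ 2 = 1 := Real.cos_sq_add_sin_sq β
  have hk7 : 7 / 10 ≤ k := by
    have h1 : Real.cos (Real.pi / 4) ≤ Real.cos |β| :=
      Real.cos_le_cos_of_nonneg_of_le_pi (abs_nonneg _) (by linarith) hβ
    rw [Real.cos_abs, Real.cos_pi_div_four] at h1
    have h2 : (1.4 : ℝ) ≤ Real.sqrt 2 := by
      apply Real.le_sqrt_of_sq_le; norm_num
    rw [hk]
    linarith
  have hk0 : 0 < k := by linarith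
  have hexp : ∀ r : ℝ, Complex.exp ((r : ℂ) * I) = ⟨Real.cos r, Real.sin r⟩ := by
    intro r
    rw [Complex.exp_mul_I]
    apply Complex.ext
    · simp [← Complex.ofReal_cos, ← Complex.ofReal_sin]
    · simp [← Complex.ofReal_cos, ← Complex.ofReal_sin]
  have hb : Complex.exp ((β : ℂ) * I) = (⟨k, s⟩ : ℂ) := hexp β
  have hb' : Complex.exp (-(β : ℂ) * I) = (⟨k, -s⟩ : ℂ) := by
    have := hexp (-β)
    rw [Complex.ofReal_neg, Real.cos_neg, Real.sin_neg] at this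
    exact this
  have hbb : (⟨k, -s⟩ : ℂ) = (⟨k, s⟩ : ℂ)⁻¹ := by
    rw [← hb, ← hb', ← Complex.exp_neg]; congr 1; ring
  have hbne : (⟨k, s⟩ : ℂ) ≠ 0 := by rw [← hb]; exact Complex.exp_ne_zero _
  have hab : a = (⟨k, s⟩ : ℂ) ^ 2 := by
    rw [← hb, ← Complex.exp_nat_mul]
    have h1 := Complex.norm_mul_exp_arg_mul_I a
    rw [hx1, Complex.ofReal_one, one_mul] at h1
    rw [← h1]
    congr 1
    rw [hβd]
    push_cast
    ring
  set c := Complex.exp (-(β : ℂ) * I * q) with hc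
  have hcn : ‖c‖ = 1 := by
    rw [hc]
    have : -(β : ℂ) * I * q = ((-β * q : ℝ) : ℂ) * I := by push_cast; ring
    rw [this, Complex.norm_exp_ofReal_mul_I]
  have hcc : ‖c - (⟨k, -s⟩ : ℂ)‖ ≤ 1 - q := by
    rw [← hb']; exact exp_diff hβ1 hq1.le
  -- the function R
  set σ : ℝ → ℂ := fun ρ => (ρ : ℂ) * (⟨k, s⟩ : ℂ) with hσ
  have hσi : ∀ ρ : ℝ, 0 < ρ → ∀ i, σ ρ + μ i ≠ 0 := by
    intro ρ hρ i h0
    have h1 := congrArg Complex.re h0
    rw [hσ, Complex.add_re, Complex.re_ofReal_mul, Complex.zero_re] at h1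
    have := hμ i
    have : 0 < ρ * k := by positivity
    simp only at h1
    linarith
  have hσa : ∀ ρ : ℝ, 0 < ρ → σ ρ + a ≠ 0 := by
    intro ρ hρ h0
    have h1 := congrArg Complex.re h0
    rw [hσ, Complex.add_re, Complex.re_ofReal_mul, Complex.zero_re] at h1
    have : 0 < ρ * k := by positivity
    simp only at h1
    linarith
  set Z : ℝ → H := fun ρ => Op e (fun i => 1 / (σ ρ + μ i)) y with hZ
  set R : ℝ → ℂ := fun ρ => σ ρ * (inner ℂ (y) (Z ρ)) with hR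
  have hRcont : ContinuousOn R (Ioi 0) := by
    have e1 : R = fun ρ => σ ρ * ∑ i, (e.repr y i * (inner ℂ (y) (e i))) * (1 / (σ ρ + μ i)) := by
      funext ρ
      rw [hR, hZ]
      simp only
      rw [inner_Op]
    rw [e1]
    have hσc : Continuous σ := by rw [hσ]; fun_prop
    apply hσc.continuousOn.mul
    apply continuousOn_finsetSum
    intro i _
    apply continuousOn_const.mul
    apply continuousOn_const.div (hσc.continuousOn.add continuousOn_const)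
    intro ρ hρ
    exact hσi ρ hρ i
  have h1 : ∀ ρ : ℝ, 0 < ρ →
      ‖R ρ - ((‖y‖ ^ 2 : ℝ) : ℂ) * (⟨k, s⟩ : ℂ) / (2 * k)‖ ≤ (‖y‖ ^ 2) / (2 * k) := by
    intro ρ hρ
    exact disc_one (Op e μ) hacc hk0 hks hρ.le (Op_res e μ (σ ρ) (hσi ρ hρ) y)
  have h2 : ∀ ρ : ℝ, 1 < ρ → ‖R ρ - ((‖y‖ ^ 2 : ℝ) : ℂ) * ((ρ ^ 2 + 1) / (ρ ^ 2 - 1) : ℝ)‖ ≤
      (‖y‖ ^ 2) * (2 * ρ / (ρ ^ 2 - 1)) := by
    intro ρ hρ
    have hρ0 : 0 < ρ := by linarith
    have hne : ∀ η ∈ Metric.ball (0 : ℂ) 1, ∀ i, 1 + η * μ i ≠ 0 := by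
      intro η hη i h0
      have h3 : ‖η‖ < 1 := by simpa using hη
      have h4 := eig_le e μ hnr i
      have h5 : ‖η * μ i‖ < 1 := by
        rw [norm_mul]
        calc ‖η‖ * ‖μ i‖ ≤ ‖η‖ * 1 := by gcongr
          _ < 1 := by linarith
      have h6 : η * μ i = -1 := by linear_combination h0
      rw [h6] at h5
      simp at h5
    have hb1 := berger (Op e μ) hnr y (fun η => Op e (fun i => 1 / (1 + η * μ i)) y) ?_ ?_
      (η := (σ ρ)⁻¹) ?_
    · have hσn : ‖σ ρ‖ = ρ := by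
        rw [hσ]
        simp only
        rw [norm_mul, Complex.norm_real, Real.norm_of_nonneg hρ0.le, ← hb,
          Complex.norm_exp_ofReal_mul_I, mul_one]
      have hσ0 : σ ρ ≠ 0 := by rw [← norm_pos_iff, hσn]; exact hρ0
      have e1 : (inner ℂ (y) (Op e (fun i => 1 / (1 + (σ ρ)⁻¹ * μ i)) y)) = R ρ := by
        rw [hR, hZ]
        simp only
        rw [← inner_smul_right, ← Op_smul]
        congr 3
        funext i
        have := hσi ρ hρ0 i
        have h3 : 1 + (σ ρ)⁻¹ * μ i = (σ ρ + μ i) / σ ρ := by field_simp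
        rw [h3]
        field_simp
      rw [e1, norm_inv, hσn] at hb1
      have := disc_of hρ hb1
      rwa [abs_of_nonneg (by positivity)] at this
    · intro η hη
      rw [Op_comp, ← Op_smul, ← Op_add]
      conv_rhs => rw [← Op_one e y]
      congr 2
      funext i
      have := hne η hη i
      field_simp
    · have e1 : (fun η : ℂ => (inner ℂ (y) (Op e (fun i => 1 / (1 + η * μ i)) y))) =
          fun η => ∑ i, (e.repr y i * (inner ℂ (y) (e i))) * (1 / (1 + η * μ i)) := by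
        funext η
        rw [inner_Op]
      rw [e1]
      intro η hη
      apply DifferentiableAt.differentiableWithinAt
      apply DifferentiableAt.fun_sum
      intro i _
      have := hne η hη i
      fun_prop (disch := assumption)
    · rw [norm_inv, hσ]
      simp only
      rw [norm_mul, Complex.norm_real, Real.norm_of_nonneg hρ0.le, ← hb,
          Complex.norm_exp_ofReal_mul_I, mul_one]
      exact inv_lt_one_of_one_lt₀ hρ
  have hmain := step hks hk7 hq1 hq (by positivity : 0 ≤ ‖y‖ ^ 2) hcc hRcont h1 h2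
  set J := ∫ ρ in Ioi (0 : ℝ), (((ρ ^ (q - 1) : ℝ) : ℂ) * c) *
      (R ρ / (1 + ρ * (⟨k, -s⟩ : ℂ)) ^ 2) with hJ
  have hJint := integrand_int hks (by linarith : 1 / 2 ≤ k) hq0 hq1 (by positivity : 0 ≤ ‖y‖ ^ 2)
    (c := c) hRcont h1
  -- integral identity
  set C : ι → ℂ := fun i => e.repr x i * (inner ℂ (x) (e i)) with hC
  have hslit : ∀ i, μ i * (⟨k, -s⟩ : ℂ) ∈ slitPlane := fun i => slit_rot (hμ i) hk0 hks
  have hbslit : (⟨k, s⟩ : ℂ) ∈ slitPlane := Or.inl hk0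
  have hpoint : ∀ ρ : ℝ, 0 < ρ →
      ∑ i, C i * ((μ i * (⟨k, -s⟩ : ℂ)) / ((ρ : ℂ) + μ i * (⟨k, -s⟩ : ℂ))) =
        (⟨k, s⟩ : ℂ) / ((ρ : ℂ) + (⟨k, s⟩ : ℂ)) + R ρ / (1 + ρ * (⟨k, -s⟩ : ℂ)) ^ 2 := by
    intro ρ hρ
    apply sum_identity e μ hx hbne hbb hab rfl (hσi ρ hρ) (hσa ρ hρ)
    exact hy (σ ρ) (hσa ρ hρ) (fun v hv => Op_res' e μ (σ ρ) (hσi ρ hρ) v hv) _ _
      (Op_res e μ (σ ρ) (hσi ρ hρ) x) (Op_res e μ (σ ρ) (hσi ρ hρ) y)
  have hint : ∑ i, (c * C i) * (∫ ρ in Ioi (0 : ℝ), ((ρ ^ (q - 1) : ℝ) : ℂ) *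
      ((μ i * (⟨k, -s⟩ : ℂ)) / ((ρ : ℂ) + μ i * (⟨k, -s⟩ : ℂ)))) =
      c * (∫ ρ in Ioi (0 : ℝ), ((ρ ^ (q - 1) : ℝ) : ℂ) *
        ((⟨k, s⟩ : ℂ) / ((ρ : ℂ) + (⟨k, s⟩ : ℂ)))) + J := by
    have i1 := (int_bal hq0 hq1 hbslit).const_mul c
    have e1 := integral_add (μ := volume.restrict (Ioi (0 : ℝ))) i1 hJint
    rw [integral_const_mul] at e1
    rw [hJ, ← e1]
    have e2 : ∀ i, (c * C i) * (∫ ρ in Ioi (0 : ℝ), ((ρ ^ (q - 1) : ℝ) : ℂ) *
      ((μ i * (⟨k, -s⟩ : ℂ)) / ((ρ : ℂ) + μ i * (⟨k, -s⟩ : ℂ)))) =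
      ∫ ρ in Ioi (0 : ℝ), (c * C i) * (((ρ ^ (q - 1) : ℝ) : ℂ) *
      ((μ i * (⟨k, -s⟩ : ℂ)) / ((ρ : ℂ) + μ i * (⟨k, -s⟩ : ℂ)))) := fun i =>
        (integral_const_mul _ _).symm
    simp_rw [e2]
    rw [← integral_finsetSum]
    · apply setIntegral_congr_fun measurableSet_Ioi
      intro ρ hρ
      have h3 := hpoint ρ hρ
      simp only
      have e3 : ∑ i, c * C i * (((ρ ^ (q - 1) : ℝ) : ℂ) *
          (μ i * (⟨k, -s⟩ : ℂ) / ((ρ : ℂ) + μ i * (⟨k, -s⟩ : ℂ)))) =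
          c * ((ρ ^ (q - 1) : ℝ) : ℂ) *
          ∑ i, C i * ((μ i * (⟨k, -s⟩ : ℂ)) / ((ρ : ℂ) + μ i * (⟨k, -s⟩ : ℂ))) := by
        rw [Finset.mul_sum]
        apply Finset.sum_congr rfl
        intro i _
        ring
      rw [e3, h3]
      ring
    · intro i _
      exact (int_bal hq0 hq1 (hslit i)).const_mul _
  have hsin : 0 < Real.sin (Real.pi * q) :=
    Real.sin_pos_of_pos_of_lt_pi (by positivity) (by nlinarith)
  have hK : (Real.pi : ℂ) / Complex.sin (Real.pi * q) =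
      ((Real.pi / Real.sin (Real.pi * q) : ℝ) : ℂ) := by push_cast; rfl
  set K : ℝ := Real.pi / Real.sin (Real.pi * q) with hKd
  have hKpos : 0 < K := by positivity
  have hb1 : (⟨k, s⟩ : ℂ) ^ (q : ℂ) * c = 1 := by
    have h3 := cpow_rot (w := 1) (by simp) (β := -β) (by rwa [abs_neg]) (q : ℂ)
    rw [one_mul, Complex.one_cpow, one_mul, Complex.ofReal_neg, neg_neg, hb] at h3
    rw [h3, hc, ← Complex.exp_add]
    have : (β : ℂ) * I * q + -(β : ℂ) * I * q = 0 := by ring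
    rw [this, Complex.exp_zero]
  have hw : ∀ i, (μ i * (⟨k, -s⟩ : ℂ)) ^ (q : ℂ) = μ i ^ (q : ℂ) * c := by
    intro i
    rw [← hb']
    exact cpow_rot (hμ i) hβ2 _
  have hfin : (K : ℂ) * (c ^ 2 * (inner ℂ (x) (Op e (fun i => μ i ^ (q : ℂ)) x))) = K + J := by
    rw [bal hq0 hq1 hbslit, hK] at hint
    have e1 : ∑ i, (c * C i) * (∫ ρ in Ioi (0 : ℝ), ((ρ ^ (q - 1) : ℝ) : ℂ) *
      ((μ i * (⟨k, -s⟩ : ℂ)) / ((ρ : ℂ) + μ i * (⟨k, -s⟩ : ℂ)))) =
        (K : ℂ) * (c ^ 2 * (inner ℂ (x) (Op e (fun i => μ i ^ (q : ℂ)) x))) := by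
      rw [inner_Op, Finset.mul_sum, Finset.mul_sum]
      apply Finset.sum_congr rfl
      intro i _
      rw [bal hq0 hq1 (hslit i), hw i, hK, hC]
      ring
    rw [e1] at hint
    rw [hint]
    linear_combination (K : ℂ) * hb1
  have hre : K ≤ ((K : ℂ) * (c ^ 2 * (inner ℂ (x) (Op e (fun i => μ i ^ (q : ℂ)) x)))).re := by
    rw [hfin, Complex.add_re, Complex.ofReal_re]
    linarith
  have hle := hre.trans (Complex.re_le_norm _)
  rw [norm_mul, norm_mul, norm_pow, hcn, one_pow, one_mul, Complex.norm_real,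
    Real.norm_of_nonneg hKpos.le] at hle
  have : K * 1 ≤ K * ‖(inner ℂ (x) (Op e (fun i => μ i ^ (q : ℂ)) x))‖ := by linarith
  exact le_of_mul_le_mul_left this hKpos

end

end Pool.Agent.X19.NR
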