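import Mathlib
import Pool.Agent.X19.NR.FinStep

open Set Filter Topology MeasureTheory Complex

namespace Pool.Agent.X19.NR

noncomputable section

variable {H : Type*} [NormedAddCommGroup H] [InnerProductSpace ℂ H]

/-- the numerical radius of an operator -/
def nr (T : H →ₗ[ℂ] H) : ℝ := sSup ((fun x => ‖(inner ℂ (x) (T x))‖) '' {x | ‖x‖ = 1})

theorem nr_cont [FiniteDimensional ℂ H] (T : H →ₗ[ℂ] H) : Continuous (fun x => ‖(inner ℂ (x) (T x))‖) :=
  (continuous_id.inner T.continuous_of_finiteDimensional).norm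

theorem nr_bdd [FiniteDimensional ℂ H] (T : H →ₗ[ℂ] H) :
    BddAbove ((fun x => ‖(inner ℂ (x) (T x))‖) '' {x | ‖x‖ = 1}) := by
  have h1 : IsCompact (Metric.sphere (0 : H) 1) := isCompact_sphere _ _
  have h2 : {x : H | ‖x‖ = 1} = Metric.sphere (0 : H) 1 := by ext x; simp
  rw [h2]
  exact (h1.image (nr_cont T)).bddAbove

theorem nr_attained [FiniteDimensional ℂ H] [Nontrivial H] (T : H →ₗ[ℂ] H) :
    ∃ x : H, ‖x‖ = 1 ∧ ‖(inner ℂ (x) (T x))‖ = nr T := by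
  have h1 : IsCompact (Metric.sphere (0 : H) 1) := isCompact_sphere _ _
  have h2 : {x : H | ‖x‖ = 1} = Metric.sphere (0 : H) 1 := by ext x; simp
  have h3 : (Metric.sphere (0 : H) 1).Nonempty := by
    obtain ⟨v, hv⟩ := exists_ne (0 : H)
    refine ⟨((‖v‖⁻¹ : ℝ) : ℂ) • v, ?_⟩
    rw [mem_sphere_zero_iff_norm, norm_smul, Complex.norm_real, Real.norm_of_nonneg (by positivity),
      inv_mul_cancel₀ (norm_ne_zero_iff.2 hv)]
  obtain ⟨x, hx, hx2⟩ := (h1.image (nr_cont T)).sSup_mem (h3.image _)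
  refine ⟨x, by simpa using hx, ?_⟩
  unfold nr
  rw [h2, ← hx2]

theorem le_nr [FiniteDimensional ℂ H] (T : H →ₗ[ℂ] H) (v : H) :
    ‖(inner ℂ (v) (T v))‖ ≤ nr T * ‖v‖ ^ 2 := by
  rcases eq_or_ne v 0 with rfl | hv
  · simp
  have hn : 0 < ‖v‖ := norm_pos_iff.2 hv
  set u : H := ((‖v‖⁻¹ : ℝ) : ℂ) • v with hu
  have hu1 : ‖u‖ = 1 := by
    rw [hu, norm_smul, Complex.norm_real, Real.norm_of_nonneg (by positivity),
      inv_mul_cancel₀ hn.ne']
  have h1 : ‖(inner ℂ (u) (T u))‖ ≤ nr T := le_csSup (nr_bdd T) ⟨u, hu1, rfl⟩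
  have hv' : v = ((‖v‖ : ℝ) : ℂ) • u := by
    rw [hu, smul_smul, ← Complex.ofReal_mul, mul_inv_cancel₀ hn.ne']
    simp
  have h2 : ‖(inner ℂ (v) (T v))‖ = ‖v‖ ^ 2 * ‖(inner ℂ (u) (T u))‖ := by
    conv_lhs => rw [hv']
    rw [map_smul, inner_smul_left, inner_smul_right, Complex.conj_ofReal, norm_mul, norm_mul,
      Complex.norm_real, Real.norm_of_nonneg hn.le]
    ring
  rw [h2, mul_comm]
  gcongr

theorem cpow_scale {r : ℝ} (hr : 0 < r) {z : ℂ} (hz : z ≠ 0) (q : ℝ) :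
    ((r : ℂ) * z) ^ (q : ℂ) = ((r ^ q : ℝ) : ℂ) * z ^ (q : ℂ) := by
  have hr' : (r : ℂ) ≠ 0 := by exact_mod_cast hr.ne'
  rw [Complex.cpow_def_of_ne_zero (mul_ne_zero hr' hz), Complex.log_ofReal_mul hr hz,
    Complex.cpow_def_of_ne_zero hz, add_mul, Complex.exp_add]
  congr 1
  rw [Real.rpow_def_of_pos hr]
  push_cast
  rfl

theorem cpow_re_pos {z : ℂ} (hz : 0 < z.re) {p : ℝ} (hp0 : 0 < p) (hp1 : p ≤ 1) :
    0 < (z ^ (p : ℂ)).re := by
  have hz0 : z ≠ 0 := by rintro rfl; simp at hz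
  have harg := abs_lt.1 (Complex.abs_arg_lt_pi_div_two_iff.2 (Or.inl hz))
  have hpi := Real.pi_pos
  rw [Complex.cpow_def_of_ne_zero hz0, Complex.exp_re]
  apply mul_pos (Real.exp_pos _)
  rw [Complex.im_mul_ofReal, Complex.log_im]
  apply Real.cos_pos_of_mem_Ioo
  constructor
  · nlinarith [harg.1]
  · nlinarith [harg.2]

theorem cpow_cpow {z : ℂ} (hz : 0 < z.re) {p : ℝ} (hp0 : 0 < p) (hp1 : p ≤ 1) (q : ℝ) :
    (z ^ (p : ℂ)) ^ (q : ℂ) = z ^ ((p * q : ℝ) : ℂ) := by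
  have harg := abs_lt.1 (Complex.abs_arg_lt_pi_div_two_iff.2 (Or.inl hz))
  have hpi := Real.pi_pos
  push_cast
  rw [Complex.cpow_mul]
  · rw [Complex.im_mul_ofReal, Complex.log_im]; nlinarith [harg.1]
  · rw [Complex.im_mul_ofReal, Complex.log_im]; nlinarith [harg.2]

variable {ι : Type*} [Fintype ι]

theorem int_Op (e : Module.Basis ι ℂ H) (μ : ι → ℂ) (hμ : ∀ i, 0 < (μ i).re) {p : ℝ} (hp0 : 0 < p)
    (hp1 : p < 1) (u v : H) :
    IntegrableOn (fun ρ : ℝ => ((ρ ^ (p - 1) : ℝ) : ℂ) * (inner ℂ (u) (Op e (fun i => μ i / (ρ + μ i)) v)))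
      (Ioi 0) ∧
    ∫ ρ in Ioi (0 : ℝ), ((ρ ^ (p - 1) : ℝ) : ℂ) * (inner ℂ (u) (Op e (fun i => μ i / (ρ + μ i)) v)) =
      ((Real.pi / Real.sin (Real.pi * p) : ℝ) : ℂ) * (inner ℂ (u) (Op e (fun i => μ i ^ (p : ℂ)) v)) := by
  have hK : (Real.pi : ℂ) / Complex.sin (Real.pi * p) =
      ((Real.pi / Real.sin (Real.pi * p) : ℝ) : ℂ) := by push_cast; rfl
  have hslit : ∀ i, μ i ∈ slitPlane := fun i => Or.inl (hμ i)
  have e1 : (fun ρ : ℝ => ((ρ ^ (p - 1) : ℝ) : ℂ) * (inner ℂ (u) (Op e (fun i => μ i / (ρ + μ i)) v))) =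
      fun ρ : ℝ => ∑ i, (e.repr v i * (inner ℂ (u) (e i))) *
        (((ρ ^ (p - 1) : ℝ) : ℂ) * (μ i / ((ρ : ℂ) + μ i))) := by
    funext ρ
    rw [inner_Op, Finset.mul_sum]
    apply Finset.sum_congr rfl
    intro i _
    ring
  rw [e1]
  constructor
  · apply integrable_finsetSum
    intro i _
    exact (int_bal hp0 hp1 (hslit i)).const_mul _
  · rw [integral_finsetSum]
    · rw [inner_Op, Finset.mul_sum]
      apply Finset.sum_congr rfl
      intro i _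
      rw [integral_const_mul, bal hp0 hp1 (hslit i), hK]
      ring
    · intro i _
      exact (int_bal hp0 hp1 (hslit i)).const_mul _

theorem Op_pow_acc (e : Module.Basis ι ℂ H) (μ : ι → ℂ) (hμ : ∀ i, 0 < (μ i).re)
    (hacc : ∀ v, 0 ≤ ((inner ℂ (v) (Op e μ v))).re) {p : ℝ} (hp0 : 0 < p) (hp1 : p < 1) (v : H) :
    0 ≤ ((inner ℂ (v) (Op e (fun i => μ i ^ (p : ℂ)) v))).re := by
  obtain ⟨h1, h2⟩ := int_Op e μ hμ hp0 hp1 v v
  have hsin : 0 < Real.sin (Real.pi * p) :=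
    Real.sin_pos_of_pos_of_lt_pi (by positivity) (by nlinarith [Real.pi_pos])
  have hK : 0 < Real.pi / Real.sin (Real.pi * p) := by have := Real.pi_pos; positivity
  have h3 := congrArg Complex.re h2
  rw [Complex.re_ofReal_mul] at h3
  have h4 : 0 ≤ (∫ ρ in Ioi (0 : ℝ), ((ρ ^ (p - 1) : ℝ) : ℂ) *
      (inner ℂ (v) (Op e (fun i => μ i / (ρ + μ i)) v))).re := by
    have h5 := integral_re h1
    have h6 : (∫ ρ in Ioi (0 : ℝ), ((ρ ^ (p - 1) : ℝ) : ℂ) *
      (inner ℂ (v) (Op e (fun i => μ i / (ρ + μ i)) v))).re = ∫ ρ in Ioi (0 : ℝ),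
      (((ρ ^ (p - 1) : ℝ) : ℂ) * (inner ℂ (v) (Op e (fun i => μ i / (ρ + μ i)) v))).re := h5.symm
    rw [h6]
    apply setIntegral_nonneg measurableSet_Ioi
    intro ρ hρ
    have hρ' : 0 < ρ := hρ
    rw [Complex.re_ofReal_mul]
    apply mul_nonneg (by positivity)
    have hne : ∀ i, (ρ : ℂ) + μ i ≠ 0 := by
      intro i h0
      have h1 := congrArg Complex.re h0
      rw [Complex.add_re, Complex.ofReal_re, Complex.zero_re] at h1
      have := hμ i
      linarith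
    have hres := Op_res e μ ρ hne v
    set z := Op e (fun i => 1 / ((ρ : ℂ) + μ i)) v with hz
    have h7 : Op e (fun i => μ i / ((ρ : ℂ) + μ i)) v = Op e μ z := by
      rw [hz, Op_comp]
      congr 2
      funext i
      ring
    rw [h7]
    nth_rw 1 [← hres]
    rw [inner_add_left, inner_smul_left, Complex.conj_ofReal, inner_self_ofReal, Complex.add_re,
      Complex.re_ofReal_mul, Complex.ofReal_re]
    have := hacc z
    positivity
  rw [h3] at h4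
  exact nonneg_of_mul_nonneg_right h4 hK

/-- one step of the chain -/
theorem chain_step [FiniteDimensional ℂ H] [Nontrivial H] (e : Module.Basis ι ℂ H) (μ : ι → ℂ)
    (hμ : ∀ i, 0 < (μ i).re) (hacc : ∀ v, 0 ≤ ((inner ℂ (v) (Op e μ v))).re) {q : ℝ} (hq1 : q < 1)
    (hq : 1 - q ≤ 1 / (256 * (M0 + 1))) :
    (nr (Op e μ)) ^ q ≤ nr (Op e (fun i => μ i ^ (q : ℂ))) := by
  obtain ⟨x, hx, hxW⟩ := nr_attained (Op e μ)
  have hle := le_nr (Op e μ)
  set W := nr (Op e μ) with hW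
  have hW0 : 0 < W := by
    by_contra hc
    have hne : Nonempty ι := e.index_nonempty
    obtain ⟨i⟩ := hne
    have h1 := hle (e i)
    rw [Op_basis, inner_smul_right, inner_self_ofReal, norm_mul, Complex.norm_real,
      Real.norm_of_nonneg (by positivity)] at h1
    have h2 : 0 < ‖e i‖ ^ 2 := by
      have := norm_pos_iff.2 (e.ne_zero i)
      positivity
    have h3 : 0 < ‖μ i‖ := norm_pos_iff.2 (by
      intro h0; have := hμ i; rw [h0] at this; simp at this)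
    nlinarith [mul_pos h3 h2]
  have e1 : ∀ v, Op e (fun i => ((W⁻¹ : ℝ) : ℂ) * μ i) v = ((W⁻¹ : ℝ) : ℂ) • Op e μ v :=
    fun v => Op_smul e _ μ v
  have hWi : 0 < W⁻¹ := by positivity
  have h1 : 1 ≤ ‖(inner ℂ (x) (Op e (fun i => (((W⁻¹ : ℝ) : ℂ) * μ i) ^ (q : ℂ)) x))‖ := by
    apply fin_step e (fun i => ((W⁻¹ : ℝ) : ℂ) * μ i) _ _ _ hx _ hq1 hq
    · intro i
      rw [Complex.re_ofReal_mul]
      exact mul_pos hWi (hμ i)
    · intro v
      rw [e1, inner_smul_right, Complex.re_ofReal_mul]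
      exact mul_nonneg hWi.le (hacc v)
    · intro v
      rw [e1, inner_smul_right, norm_mul, Complex.norm_real, Real.norm_of_nonneg hWi.le]
      have := mul_le_mul_of_nonneg_left (hle v) hWi.le
      rwa [← mul_assoc, inv_mul_cancel₀ hW0.ne', one_mul] at this
    · rw [e1, inner_smul_right, norm_mul, Complex.norm_real, Real.norm_of_nonneg hWi.le, hxW,
        inv_mul_cancel₀ hW0.ne']
  have e2 : (fun i => (((W⁻¹ : ℝ) : ℂ) * μ i) ^ (q : ℂ)) =
      fun i => (((W⁻¹) ^ q : ℝ) : ℂ) * μ i ^ (q : ℂ) := by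
    funext i
    exact cpow_scale hWi (by intro h0; have := hμ i; rw [h0] at this; simp at this) q
  rw [e2, Op_smul, inner_smul_right, norm_mul, Complex.norm_real,
    Real.norm_of_nonneg (by positivity), Real.inv_rpow hW0.le] at h1
  have hWq : 0 < W ^ q := by positivity
  have h2 : W ^ q ≤ ‖(inner ℂ (x) (Op e (fun i => μ i ^ (q : ℂ)) x))‖ := by
    have := mul_le_mul_of_nonneg_left h1 hWq.le
    rwa [← mul_assoc, mul_inv_cancel₀ hWq.ne', one_mul, mul_one] at this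
  refine h2.trans ?_
  have := le_nr (Op e (fun i => μ i ^ (q : ℂ))) x
  rwa [hx, one_pow, mul_one] at this

/-- iteration -/
theorem chain_iter [FiniteDimensional ℂ H] [Nontrivial H] (e : Module.Basis ι ℂ H) (μ : ι → ℂ)
    (hμ : ∀ i, 0 < (μ i).re) (hacc : ∀ v, 0 ≤ ((inner ℂ (v) (Op e μ v))).re) {q : ℝ} (hq0 : 0 < q) (hq1 : q < 1)
    (hq : 1 - q ≤ 1 / (256 * (M0 + 1))) (j : ℕ) :
    (nr (Op e μ)) ^ (q ^ (j + 1)) ≤ nr (Op e (fun i => μ i ^ ((q ^ (j + 1) : ℝ) : ℂ))) := by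
  have hW0 : 0 ≤ nr (Op e μ) := by
    obtain ⟨x, hx, hxW⟩ := nr_attained (Op e μ)
    rw [← hxW]; positivity
  induction j with
  | zero =>
    have := chain_step e μ hμ hacc hq1 hq
    simpa using this
  | succ j ih =>
    have hp0 : 0 < q ^ (j + 1) := by positivity
    have hp1 : q ^ (j + 1) < 1 := pow_lt_one₀ hq0.le hq1 (by omega)
    have h1 := chain_step e (fun i => μ i ^ ((q ^ (j + 1) : ℝ) : ℂ))
      (fun i => cpow_re_pos (hμ i) hp0 hp1.le) (Op_pow_acc e μ hμ hacc hp0 hp1) hq1 hq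
    have e1 : (fun i => (μ i ^ ((q ^ (j + 1) : ℝ) : ℂ)) ^ (q : ℂ)) =
        fun i => μ i ^ ((q ^ (j + 1 + 1) : ℝ) : ℂ) := by
      funext i
      rw [cpow_cpow (hμ i) hp0 hp1.le, pow_succ q (j + 1)]
    rw [e1] at h1
    refine le_trans ?_ h1
    have e2 : (nr (Op e μ)) ^ (q ^ (j + 1 + 1)) = ((nr (Op e μ)) ^ (q ^ (j + 1))) ^ q := by
      rw [← Real.rpow_mul hW0, pow_succ q (j + 1)]
    rw [e2]
    exact Real.rpow_le_rpow (by positivity) ih hq0.le

theorem chain [FiniteDimensional ℂ H] [Nontrivial H] (e : Module.Basis ι ℂ H) (μ : ι → ℂ)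
    (hμ : ∀ i, 0 < (μ i).re) (hacc : ∀ v, 0 ≤ ((inner ℂ (v) (Op e μ v))).re) {t : ℝ} (ht0 : 0 < t) (ht1 : t < 1) :
    (nr (Op e μ)) ^ t ≤ nr (Op e (fun i => μ i ^ (t : ℂ))) := by
  have hM := M0_nonneg
  set δ : ℝ := 1 / (256 * (M0 + 1)) with hδ
  have hδ0 : 0 < δ := by positivity
  -- choose the root
  have hlim : Tendsto (fun j : ℕ => t ^ (1 / ((j : ℝ) + 1))) atTop (𝓝 (t ^ (0 : ℝ))) := by
    have h1 : ContinuousAt (fun y : ℝ => t ^ y) 0 :=
      (Real.continuousAt_const_rpow ht0.ne')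
    exact h1.tendsto.comp tendsto_one_div_add_atTop_nhds_zero_nat
  rw [Real.rpow_zero] at hlim
  have hev := hlim.eventually (lt_mem_nhds (by linarith : 1 - δ < 1))
  obtain ⟨j, hj⟩ := hev.exists
  set q := t ^ (1 / ((j : ℝ) + 1)) with hq
  have hq0 : 0 < q := by positivity
  have hq1 : q < 1 := Real.rpow_lt_one ht0.le ht1 (by positivity)
  have hqt : q ^ (j + 1) = t := by
    rw [hq, ← Real.rpow_natCast, ← Real.rpow_mul ht0.le]
    push_cast
    rw [one_div, inv_mul_cancel₀ (by positivity), Real.rpow_one]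
  have := chain_iter e μ hμ hacc hq0 hq1 (by linarith) j
  rwa [hqt] at this

end

end Pool.Agent.X19.NR
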