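import Mathlib
import Pool.Agent.X19.NR.Chain

open Set Filter Topology MeasureTheory Complex

namespace Pool.Agent.X19.NR

noncomputable section

variable {n : ℕ}

/-- a matrix with separable characteristic polynomial has an eigenbasis -/
theorem exists_Op (A : Matrix (Fin n) (Fin n) ℂ) (hA : A.charpoly.Separable) :
    ∃ (ι : Type) (_ : Fintype ι) (e : Module.Basis ι ℂ (EuclideanSpace ℂ (Fin n))) (μ : ι → ℂ),
      Matrix.toEuclideanLin A = Op e μ := by
  classical
  set S := A.charpoly.roots.toFinset with hS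
  have hcard : S.card = n := by
    rw [hS, Multiset.toFinset_card_of_nodup (Polynomial.nodup_roots hA),
      ← (IsAlgClosed.splits A.charpoly).natDegree_eq_card_roots, Matrix.charpoly_natDegree_eq_dim,
      Fintype.card_fin]
  have hex : ∀ r : S, ∃ v : EuclideanSpace ℂ (Fin n), v ≠ 0 ∧
      Matrix.toEuclideanLin A v = (r : ℂ) • v := by
    intro r
    have hr : A.charpoly.IsRoot r := by
      have h1 : (r : ℂ) ∈ A.charpoly.roots.toFinset := r.2
      rw [Multiset.mem_toFinset, Polynomial.mem_roots (A.charpoly_monic.ne_zero)] at h1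
      exact h1
    rw [Polynomial.IsRoot, Matrix.eval_charpoly] at hr
    obtain ⟨v, hv0, hv⟩ := Matrix.exists_mulVec_eq_zero_iff.2 hr
    refine ⟨WithLp.toLp 2 v, ?_, ?_⟩
    · intro h
      apply hv0
      have := congrArg WithLp.ofLp h
      simpa using this
    · rw [Matrix.sub_mulVec] at hv
      have h2 : A.mulVec v = (r : ℂ) • v := by
        have h3 : (Matrix.scalar (Fin n) (r : ℂ)).mulVec v = (r : ℂ) • v := by
          ext i
          simp [Matrix.mulVec_diagonal]
        rw [h3] at hv
        exact (sub_eq_zero.1 hv).symm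
      rw [Matrix.toLpLin_toLp, Matrix.toLin'_apply, h2]
      rfl
  choose v hv0 hv using hex
  have hlin : LinearIndependent ℂ v :=
    Module.End.eigenvectors_linearIndependent' (Matrix.toEuclideanLin A) (fun r : S => (r : ℂ))
      Subtype.coe_injective v (fun r => ⟨by
        rw [Module.End.mem_eigenspace_iff]; exact hv r, hv0 r⟩)
  have hfr : Fintype.card S = Module.finrank ℂ (EuclideanSpace ℂ (Fin n)) := by
    rw [Fintype.card_coe, hcard, finrank_euclideanSpace_fin]
  rcases Nat.eq_zero_or_pos n with hn | hn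
  · subst hn
    refine ⟨Fin 0, inferInstance, (EuclideanSpace.basisFun (Fin 0) ℂ).toBasis, fun _ => 0, ?_⟩
    ext v i
    exact i.elim0
  · have : Nonempty S := by
      rw [← Fintype.card_pos_iff, Fintype.card_coe, hcard]; exact hn
    refine ⟨S, inferInstance, basisOfLinearIndependentOfCardEqFinrank hlin hfr, fun r => (r : ℂ), ?_⟩
    apply (basisOfLinearIndependentOfCardEqFinrank hlin hfr).ext
    intro r
    rw [Op_basis, coe_basisOfLinearIndependentOfCardEqFinrank, hv r]

/-- the diagonal matrix with entries `1, …, n` -/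
def DD (n : ℕ) : Matrix (Fin n) (Fin n) ℂ := Matrix.diagonal (fun i => ((i : ℕ) : ℂ) + 1)

/-- the segment -/
def seg (A : Matrix (Fin n) (Fin n) ℂ) (z : ℂ) : Matrix (Fin n) (Fin n) ℂ :=
  (1 - z) • A + z • DD n

open Polynomial in
/-- the characteristic polynomial of the segment is separable except for finitely many values -/
theorem seg_separable (hn : 0 < n) (A : Matrix (Fin n) (Fin n) ℂ) :
    {z : ℂ | ¬ (seg A z).charpoly.Separable}.Finite := by
  set M : Matrix (Fin n) (Fin n) ℂ[X] :=
    (1 - X : ℂ[X]) • A.map C + (X : ℂ[X]) • (DD n).map C with hM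
  have hev : ∀ z : ℂ, M.map (evalRingHom z) = seg A z := by
    intro z
    ext i j
    simp [hM, seg]
    ring
  set P := M.charpoly with hP
  have hPz : ∀ z : ℂ, P.map (evalRingHom z) = (seg A z).charpoly := by
    intro z
    rw [hP, ← Matrix.charpoly_map, hev]
  set r : ℂ[X] := resultant P P.derivative n (n - 1) with hr
  have hrz : ∀ z : ℂ, r.eval z = resultant (seg A z).charpoly (seg A z).charpoly.derivative := by
    intro z
    have h1 : (seg A z).charpoly.natDegree = n := by
      rw [Matrix.charpoly_natDegree_eq_dim, Fintype.card_fin]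
    have h2 : (seg A z).charpoly.derivative.natDegree = n - 1 := by
      rw [natDegree_derivative, h1]
    rw [h1, h2, ← hPz, derivative_map, resultant_map_map]
    rfl
  have hne : r ≠ 0 := by
    intro h0
    have h1 := hrz 1
    rw [h0, eval_zero] at h1
    have h2 : seg A 1 = DD n := by simp [seg]
    rw [h2] at h1
    have h3 : (DD n).charpoly.Separable := by
      rw [DD, Matrix.charpoly_diagonal, separable_prod_X_sub_C_iff]
      intro i j hij
      have : ((i : ℕ) : ℂ) = ((j : ℕ) : ℂ) := by simpa using hij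
      exact Fin.ext (by exact_mod_cast this)
    exact resultant_ne_zero _ _ h3 h1.symm
  apply (r.roots.toFinset.finite_toSet).subset
  intro z hz
  rw [Finset.mem_coe, Multiset.mem_toFinset, mem_roots hne, IsRoot, hrz]
  rw [resultant_eq_zero_iff]
  refine ⟨Or.inl (Matrix.charpoly_monic _).ne_zero, ?_⟩
  exact hz

theorem seg_eventually (hn : 0 < n) (A : Matrix (Fin n) (Fin n) ℂ) :
    ∀ᶠ z : ℝ in 𝓝[>] 0, (seg A (z : ℂ)).charpoly.Separable := by
  have hfin := seg_separable hn A
  have hfin2 : {z : ℝ | ¬ (seg A (z : ℂ)).charpoly.Separable}.Finite :=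
    hfin.preimage (Complex.ofReal_injective.injOn)
  have hcl : IsClosed ({z : ℝ | ¬ (seg A (z : ℂ)).charpoly.Separable} \ {0}) :=
    (hfin2.subset sdiff_subset).isClosed
  have hmem : ({z : ℝ | ¬ (seg A (z : ℂ)).charpoly.Separable} \ {0})ᶜ ∈ 𝓝 (0 : ℝ) :=
    hcl.isOpen_compl.mem_nhds (by simp)
  filter_upwards [mem_nhdsWithin_of_mem_nhds hmem, self_mem_nhdsWithin] with z hz hz0
  by_contra hc
  exact hz ⟨hc, by simpa using (ne_of_gt hz0)⟩

end

end Pool.Agent.X19.NR
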