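import Mathlib
import Pool.Agent.X19.NR.Density

open Set Filter Topology MeasureTheory Complex
open scoped Matrix

namespace Pool.Agent.X19.NR

noncomputable section

variable {n : ℕ}

/-- the numerical radius of a matrix -/
def numRadius (A : Matrix (Fin n) (Fin n) ℂ) : ℝ :=
  sSup ((fun x : Fin n → ℂ => ‖star x ⬝ᵥ (A *ᵥ x)‖) '' {x | star x ⬝ᵥ x = 1})

/-- accretive matrices -/
def IsAccretive (A : Matrix (Fin n) (Fin n) ℂ) : Prop :=
  ∀ x : Fin n → ℂ, x ≠ 0 → 0 < (star x ⬝ᵥ (A *ᵥ x)).re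

/-- the fractional power of an accretive matrix, by the integral formula -/
def fracPow (A : Matrix (Fin n) (Fin n) ℂ) (t : ℝ) : Matrix (Fin n) (Fin n) ℂ :=
  Matrix.of fun i j => ((Real.sin (t * Real.pi) / Real.pi : ℝ) : ℂ) *
    ∫ s in Ioi (0 : ℝ), ((s ^ (t - 1) : ℝ) : ℂ) * (A * ((s : ℂ) • 1 + A)⁻¹) i j

theorem inner_toEuclid (A : Matrix (Fin n) (Fin n) ℂ) (x y : Fin n → ℂ) :
    (inner ℂ (WithLp.toLp 2 x) (Matrix.toEuclideanLin A (WithLp.toLp 2 y))) = star x ⬝ᵥ (A *ᵥ y) := by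
  rw [Matrix.toLpLin_toLp, Matrix.toLin'_apply, EuclideanSpace.inner_toLp_toLp, dotProduct_comm]

theorem inner_self_toLp (x : Fin n → ℂ) :
    star x ⬝ᵥ x = (((‖WithLp.toLp 2 x‖ : ℝ) ^ 2 : ℝ) : ℂ) := by
  rw [← inner_self_ofReal, EuclideanSpace.inner_toLp_toLp, dotProduct_comm]

theorem numRadius_eq (A : Matrix (Fin n) (Fin n) ℂ) : numRadius A = nr (Matrix.toEuclideanLin A) := by
  unfold numRadius nr
  congr 1
  ext r
  constructor
  · rintro ⟨x, hx, rfl⟩
    refine ⟨WithLp.toLp 2 x, ?_, ?_⟩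
    · have h1 : star x ⬝ᵥ x = 1 := hx
      rw [inner_self_toLp] at h1
      have h2 : ‖WithLp.toLp 2 x‖ ^ 2 = 1 := by exact_mod_cast h1
      have := norm_nonneg (WithLp.toLp 2 x)
      show ‖WithLp.toLp 2 x‖ = 1
      nlinarith
    · simp only
      rw [inner_toEuclid]
  · rintro ⟨v, hv, rfl⟩
    refine ⟨WithLp.ofLp v, ?_, ?_⟩
    · show star (WithLp.ofLp v) ⬝ᵥ (WithLp.ofLp v) = 1
      rw [inner_self_toLp]
      have : ‖v‖ = 1 := hv
      have e : WithLp.toLp 2 (WithLp.ofLp v) = v := rfl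
      rw [e, this]
      simp
    · simp only
      rw [← inner_toEuclid]

theorem entry_eq (A : Matrix (Fin n) (Fin n) ℂ) (i j : Fin n) :
    A i j = (inner ℂ (WithLp.toLp 2 (Pi.single i 1 : Fin n → ℂ))
      (Matrix.toEuclideanLin A (WithLp.toLp 2 (Pi.single j 1 : Fin n → ℂ)))) := by
  rw [inner_toEuclid]
  have e : star (Pi.single i 1 : Fin n → ℂ) = Pi.single i 1 := by
    ext l
    rcases eq_or_ne l i with rfl | h
    · simp
    · simp [Pi.single_eq_of_ne h]
  rw [e, Matrix.mulVec_single_one, single_dotProduct, one_mul]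
  rfl

theorem acc_pos {A : Matrix (Fin n) (Fin n) ℂ} (hA : IsAccretive A)
    (v : EuclideanSpace ℂ (Fin n)) (hv : v ≠ 0) : 0 < ((inner ℂ (v) (Matrix.toEuclideanLin A v))).re := by
  have e : v = WithLp.toLp 2 (WithLp.ofLp v) := rfl
  rw [e, inner_toEuclid]
  apply hA
  intro h
  apply hv
  rw [e, h]
  rfl

theorem acc_nonneg {A : Matrix (Fin n) (Fin n) ℂ} (hA : IsAccretive A)
    (v : EuclideanSpace ℂ (Fin n)) : 0 ≤ ((inner ℂ (v) (Matrix.toEuclideanLin A v))).re := by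
  rcases eq_or_ne v 0 with rfl | hv
  · simp
  · exact (acc_pos hA v hv).le

/-- the fractional power of a diagonalisable accretive matrix -/
theorem frac_diag {A : Matrix (Fin n) (Fin n) ℂ} {ι : Type} [Fintype ι]
    (e : Module.Basis ι ℂ (EuclideanSpace ℂ (Fin n))) (μ : ι → ℂ)
    (hAe : Matrix.toEuclideanLin A = Op e μ) (hμ : ∀ i, 0 < (μ i).re) {t : ℝ} (ht0 : 0 < t)
    (ht1 : t < 1) :
    Matrix.toEuclideanLin (fracPow A t) = Op e (fun i => μ i ^ (t : ℂ)) := by
  have hinv : ∀ s : ℝ, 0 < s → Matrix.toEuclideanLin (A * ((s : ℂ) • 1 + A)⁻¹) =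
      Op e (fun i => μ i / (s + μ i)) := by
    intro s hs
    have hne : ∀ i, (s : ℂ) + μ i ≠ 0 := by
      intro i h0
      have h1 := congrArg Complex.re h0
      rw [Complex.add_re, Complex.ofReal_re, Complex.zero_re] at h1
      have := hμ i
      linarith
    set N : Matrix (Fin n) (Fin n) ℂ :=
      Matrix.toEuclideanLin.symm (Op e (fun i => 1 / ((s : ℂ) + μ i))) with hN
    have hN' : Matrix.toEuclideanLin N = Op e (fun i => 1 / ((s : ℂ) + μ i)) := by
      rw [hN, LinearEquiv.apply_symm_apply]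
    have h1 : ((s : ℂ) • 1 + A) * N = 1 := by
      apply Matrix.toEuclideanLin.injective
      rw [Matrix.toLpLin_mul_same, map_add, map_smul, Matrix.toLpLin_one]
      apply LinearMap.ext
      intro v
      rw [LinearMap.comp_apply, LinearMap.add_apply, LinearMap.smul_apply, LinearMap.id_apply]
      change (s : ℂ) • (Matrix.toEuclideanLin N v) +
        Matrix.toEuclideanLin A (Matrix.toEuclideanLin N v) = v
      rw [hN', hAe]
      exact Op_res e μ s hne v
    rw [Matrix.inv_eq_right_inv h1, Matrix.toLpLin_mul_same]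
    apply LinearMap.ext
    intro v
    rw [LinearMap.comp_apply]
    change Matrix.toEuclideanLin A (Matrix.toEuclideanLin N v) = _
    rw [hN', hAe, Op_comp]
    congr 2
    funext i
    ring
  have hsin : 0 < Real.sin (Real.pi * t) :=
    Real.sin_pos_of_pos_of_lt_pi (by have := Real.pi_pos; positivity) (by nlinarith [Real.pi_pos])
  have hent : fracPow A t = Matrix.toEuclideanLin.symm (Op e (fun i => μ i ^ (t : ℂ))) := by
    ext i j
    rw [entry_eq (Matrix.toEuclideanLin.symm (Op e (fun i => μ i ^ (t : ℂ)))) i j,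
      LinearEquiv.apply_symm_apply, fracPow, Matrix.of_apply]
    have h1 : ∫ s in Ioi (0 : ℝ), ((s ^ (t - 1) : ℝ) : ℂ) * (A * ((s : ℂ) • 1 + A)⁻¹) i j =
        ∫ s in Ioi (0 : ℝ), ((s ^ (t - 1) : ℝ) : ℂ) *
          (inner ℂ (WithLp.toLp 2 (Pi.single i 1 : Fin n → ℂ))
            (Op e (fun i => μ i / (s + μ i)) (WithLp.toLp 2 (Pi.single j 1 : Fin n → ℂ)))) := by
      apply setIntegral_congr_fun measurableSet_Ioi
      intro s hs
      simp only
      rw [entry_eq (A * ((s : ℂ) • 1 + A)⁻¹) i j, hinv s hs]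
    rw [h1, (int_Op e μ hμ ht0 ht1 _ _).2, ← mul_assoc, ← Complex.ofReal_mul]
    have h2 : Real.sin (t * Real.pi) / Real.pi * (Real.pi / Real.sin (Real.pi * t)) = 1 := by
      rw [mul_comm t]
      have := Real.pi_pos
      field_simp
    rw [h2, Complex.ofReal_one, one_mul]
  rw [hent, LinearEquiv.apply_symm_apply]

theorem diag_case (hn : 0 < n) {A : Matrix (Fin n) (Fin n) ℂ} (hA : IsAccretive A)
    (hsep : A.charpoly.Separable) {t : ℝ} (ht0 : 0 < t) (ht1 : t < 1) :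
    numRadius A ^ t ≤ numRadius (fracPow A t) := by
  obtain ⟨ι, hι, e, μ, hAe⟩ := exists_Op A hsep
  have hμ : ∀ i, 0 < (μ i).re := by
    intro i
    have h1 := acc_pos hA (e i) (e.ne_zero i)
    rw [hAe, Op_basis, inner_smul_right, inner_self_ofReal, Complex.re_mul_ofReal] at h1
    exact (pos_iff_pos_of_mul_pos h1).2 (by
      have := norm_pos_iff.2 (e.ne_zero i)
      positivity)
  have hacc : ∀ v, 0 ≤ ((inner ℂ (v) (Op e μ v))).re := by
    intro v
    rw [← hAe]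
    exact acc_nonneg hA v
  have : Nontrivial (EuclideanSpace ℂ (Fin n)) := by
    apply Module.nontrivial_of_finrank_pos (R := ℂ)
    rw [finrank_euclideanSpace_fin]; exact hn
  rw [numRadius_eq, numRadius_eq, frac_diag e μ hAe hμ ht0 ht1, hAe]
  exact chain e μ hμ hacc ht0 ht1

/-! ### bounds for the resolvent -/

theorem det_ne {A : Matrix (Fin n) (Fin n) ℂ} (hA : IsAccretive A) {s : ℝ} (hs : 0 ≤ s) :
    ((s : ℂ) • (1 : Matrix (Fin n) (Fin n) ℂ) + A).det ≠ 0 := by
  intro h0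
  obtain ⟨v, hv0, hv⟩ := Matrix.exists_mulVec_eq_zero_iff.2 h0
  have h1 := hA v hv0
  rw [Matrix.add_mulVec, Matrix.smul_mulVec, Matrix.one_mulVec] at hv
  have h2 : A *ᵥ v = -((s : ℂ) • v) := by
    rw [eq_neg_iff_add_eq_zero, add_comm]; exact hv
  rw [h2, dotProduct_neg, dotProduct_smul, inner_self_toLp, smul_eq_mul, Complex.neg_re,
    ← Complex.ofReal_mul, Complex.ofReal_re] at h1
  have : 0 ≤ s * ‖WithLp.toLp 2 v‖ ^ 2 := by positivity
  linarith

theorem res_bound {A : Matrix (Fin n) (Fin n) ℂ} (hA : IsAccretive A) {s : ℝ} (hs : 0 < s)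
    (l j : Fin n) : ‖((s : ℂ) • (1 : Matrix (Fin n) (Fin n) ℂ) + A)⁻¹ l j‖ ≤ 1 / s := by
  have hdet := det_ne hA hs.le
  have hunit : IsUnit ((s : ℂ) • (1 : Matrix (Fin n) (Fin n) ℂ) + A).det := by
    rwa [isUnit_iff_ne_zero]
  set N := ((s : ℂ) • (1 : Matrix (Fin n) (Fin n) ℂ) + A)⁻¹ with hN
  have h1 : ((s : ℂ) • (1 : Matrix (Fin n) (Fin n) ℂ) + A) * N = 1 :=
    Matrix.mul_nonsing_inv _ hunit
  set w : Fin n → ℂ := N *ᵥ (Pi.single j 1) with hw
  have h2 : (s : ℂ) • w + A *ᵥ w = Pi.single j 1 := by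
    have h3 : ((s : ℂ) • (1 : Matrix (Fin n) (Fin n) ℂ) + A) *ᵥ w = Pi.single j 1 := by
      rw [hw, Matrix.mulVec_mulVec, h1, Matrix.one_mulVec]
    rw [Matrix.add_mulVec, Matrix.smul_mulVec, Matrix.one_mulVec] at h3
    exact h3
  have hwl : w l = N l j := by rw [hw, Matrix.mulVec_single_one]; rfl
  set W := WithLp.toLp 2 w with hW
  have hle : ‖N l j‖ ≤ ‖W‖ := by
    rw [← hwl]
    exact PiLp.norm_apply_le W l
  have hE : ‖WithLp.toLp 2 (Pi.single j 1 : Fin n → ℂ)‖ = 1 := by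
    simp
  have h4 : s * ‖W‖ ^ 2 ≤ ‖W‖ := by
    have h5 : (inner ℂ (W) (WithLp.toLp 2 (Pi.single j 1 : Fin n → ℂ))) =
        (s : ℂ) * ((‖W‖ ^ 2 : ℝ) : ℂ) + (inner ℂ (W) (Matrix.toEuclideanLin A W)) := by
      rw [← h2, WithLp.toLp_add, WithLp.toLp_smul, inner_add_right, inner_smul_right,
        inner_self_ofReal]
      rfl
    have h6 := congrArg Complex.re h5
    rw [Complex.add_re, Complex.re_ofReal_mul, Complex.ofReal_re] at h6
    have h7 := acc_nonneg hA W
    have h8 : ((inner ℂ (W) (WithLp.toLp 2 (Pi.single j 1 : Fin n → ℂ)))).re ≤ ‖W‖ := by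
      refine (Complex.re_le_norm _).trans ((norm_inner_le_norm _ _).trans ?_)
      rw [hE, mul_one]
    linarith
  refine hle.trans ?_
  rw [le_div_iff₀ hs]
  rcases eq_or_lt_of_le (norm_nonneg W) with h | h
  · rw [← h]; simp
  · have : ‖W‖ * (‖W‖ * s) ≤ ‖W‖ * 1 := by nlinarith
    exact le_of_mul_le_mul_left this h

theorem entry_bound {A : Matrix (Fin n) (Fin n) ℂ} (hA : IsAccretive A) {C : ℝ} (hC : 0 ≤ C)
    {i : Fin n} (hAC : ∑ l, ‖A i l‖ ≤ C) {s : ℝ} (hs : 0 < s) (j : Fin n) :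
    ‖(A * ((s : ℂ) • (1 : Matrix (Fin n) (Fin n) ℂ) + A)⁻¹) i j‖ ≤ (2 + 2 * C) * (1 + s)⁻¹ := by
  have hdet := det_ne hA hs.le
  have hunit : IsUnit ((s : ℂ) • (1 : Matrix (Fin n) (Fin n) ℂ) + A).det := by
    rwa [isUnit_iff_ne_zero]
  set N := ((s : ℂ) • (1 : Matrix (Fin n) (Fin n) ℂ) + A)⁻¹ with hN
  have h1 : ((s : ℂ) • (1 : Matrix (Fin n) (Fin n) ℂ) + A) * N = 1 :=
    Matrix.mul_nonsing_inv _ hunit
  have h2 : A * N = 1 - (s : ℂ) • N := by
    rw [add_mul, Matrix.smul_mul, Matrix.one_mul] at h1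
    rw [← h1]; abel
  have b1 : ‖(A * N) i j‖ ≤ 2 := by
    rw [h2, Matrix.sub_apply, Matrix.smul_apply, smul_eq_mul]
    refine (norm_sub_le _ _).trans ?_
    have h3 : ‖(1 : Matrix (Fin n) (Fin n) ℂ) i j‖ ≤ 1 := by
      rw [Matrix.one_apply]; split_ifs <;> simp
    have h4 : ‖(s : ℂ) * N i j‖ ≤ 1 := by
      rw [norm_mul, Complex.norm_real, Real.norm_of_nonneg hs.le]
      have := res_bound hA hs i j
      rw [le_div_iff₀ hs] at this
      linarith
    linarith
  have b2 : ‖(A * N) i j‖ ≤ C / s := by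
    rw [Matrix.mul_apply]
    refine (norm_sum_le _ _).trans ?_
    calc ∑ l, ‖A i l * N l j‖ ≤ ∑ l, ‖A i l‖ * (1 / s) := by
          apply Finset.sum_le_sum
          intro l _
          rw [norm_mul]
          exact mul_le_mul_of_nonneg_left (res_bound hA hs l j) (norm_nonneg _)
      _ = (∑ l, ‖A i l‖) * (1 / s) := by rw [Finset.sum_mul]
      _ ≤ C * (1 / s) := by gcongr
      _ = C / s := by ring
  have e : (2 + 2 * C) * (1 + s)⁻¹ = (2 + 2 * C) / (1 + s) := by rw [div_eq_mul_inv]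
  rw [e, le_div_iff₀ (by positivity)]
  rcases le_or_gt s C with h | h
  · nlinarith [norm_nonneg ((A * N) i j)]
  · rw [le_div_iff₀ hs] at b2
    nlinarith [norm_nonneg ((A * N) i j)]

theorem inv_contAt {M : Matrix (Fin n) (Fin n) ℂ} (hM : M.det ≠ 0) :
    ContinuousAt (fun M : Matrix (Fin n) (Fin n) ℂ => M⁻¹) M := by
  have e : (fun M : Matrix (Fin n) (Fin n) ℂ => M⁻¹) = fun M => (M.det)⁻¹ • M.adjugate := by
    funext M
    rw [Matrix.inv_def, Ring.inverse_eq_inv']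
  rw [e]
  exact ((Continuous.matrix_det continuous_id).continuousAt.inv₀ hM).smul
    (Continuous.matrix_adjugate continuous_id).continuousAt

theorem meas_entry {A : Matrix (Fin n) (Fin n) ℂ} (hA : IsAccretive A) (t : ℝ) (i j : Fin n) :
    AEStronglyMeasurable (fun s : ℝ => ((s ^ (t - 1) : ℝ) : ℂ) *
      (A * ((s : ℂ) • (1 : Matrix (Fin n) (Fin n) ℂ) + A)⁻¹) i j) (volume.restrict (Ioi 0)) := by
  apply ContinuousOn.aestronglyMeasurable _ measurableSet_Ioi
  intro s hs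
  have hs' : 0 < s := hs
  apply ContinuousAt.continuousWithinAt
  apply ContinuousAt.mul
  · exact Complex.continuous_ofReal.continuousAt.comp
      (Real.continuousAt_rpow_const _ _ (Or.inl hs'.ne'))
  · have h1 : ContinuousAt (fun s : ℝ => A * ((s : ℂ) • (1 : Matrix (Fin n) (Fin n) ℂ) + A)⁻¹) s := by
      apply ContinuousAt.mul continuousAt_const
      have hf : ContinuousAt (fun s : ℝ => (s : ℂ) • (1 : Matrix (Fin n) (Fin n) ℂ) + A) s := by
        fun_prop
      exact ContinuousAt.comp (g := fun M : Matrix (Fin n) (Fin n) ℂ => M⁻¹)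
        (f := fun s : ℝ => (s : ℂ) • (1 : Matrix (Fin n) (Fin n) ℂ) + A)
        (inv_contAt (det_ne hA hs'.le)) hf
    exact ((continuous_apply j).comp (continuous_apply i)).continuousAt.comp h1

theorem fracPow_int {A : Matrix (Fin n) (Fin n) ℂ} (hA : IsAccretive A) {t : ℝ} (ht0 : 0 < t)
    (ht1 : t < 1) (i j : Fin n) :
    IntegrableOn (fun s : ℝ => ((s ^ (t - 1) : ℝ) : ℂ) *
      (A * ((s : ℂ) • (1 : Matrix (Fin n) (Fin n) ℂ) + A)⁻¹) i j) (Ioi 0) := by
  refine Integrable.mono' ((base_int ht0 ht1).const_mul (2 + 2 * ∑ l, ‖A i l‖)) (meas_entry hA t i j) ?_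
  rw [ae_restrict_iff' measurableSet_Ioi]
  refine Eventually.of_forall fun s hs => ?_
  have hs' : 0 < s := hs
  rw [norm_mul, Complex.norm_real, Real.norm_of_nonneg (by positivity)]
  have := entry_bound hA (by positivity : 0 ≤ ∑ l, ‖A i l‖) le_rfl hs' j
  calc s ^ (t - 1) * ‖(A * ((s : ℂ) • (1 : Matrix (Fin n) (Fin n) ℂ) + A)⁻¹) i j‖
      ≤ s ^ (t - 1) * ((2 + 2 * ∑ l, ‖A i l‖) * (1 + s)⁻¹) := by gcongr
    _ = _ := by ring

/-! ### continuity of the numerical radius -/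

theorem numRadius_le_add (M N : Matrix (Fin n) (Fin n) ℂ) :
    numRadius M ≤ numRadius N + ∑ i, ∑ j, ‖M i j - N i j‖ := by
  rcases Nat.eq_zero_or_pos n with hn | hn
  · subst hn
    have : ∀ K : Matrix (Fin 0) (Fin 0) ℂ, numRadius K = 0 := by
      intro K
      unfold numRadius
      have : {x : Fin 0 → ℂ | star x ⬝ᵥ x = 1} = ∅ := by
        ext x
        simp
      rw [this, image_empty, Real.sSup_empty]
    rw [this, this]
    simp
  · have : Nontrivial (EuclideanSpace ℂ (Fin n)) := by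
      apply Module.nontrivial_of_finrank_pos (R := ℂ)
      rw [finrank_euclideanSpace_fin]; exact hn
    rw [numRadius_eq, numRadius_eq]
    obtain ⟨x, hx, hxM⟩ := nr_attained (Matrix.toEuclideanLin M)
    rw [← hxM]
    have h1 := le_nr (Matrix.toEuclideanLin N) x
    rw [hx, one_pow, mul_one] at h1
    have h2 : (inner ℂ (x) (Matrix.toEuclideanLin M x)) = (inner ℂ (x) (Matrix.toEuclideanLin N x)) +
        ∑ i, ∑ j, (starRingEnd ℂ (x i)) * (M i j - N i j) * x j := by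
      have e : x = WithLp.toLp 2 (WithLp.ofLp x) := rfl
      rw [e, inner_toEuclid, inner_toEuclid]
      simp only [dotProduct, Matrix.mulVec, Finset.mul_sum, Pi.star_apply]
      rw [← Finset.sum_add_distrib]
      apply Finset.sum_congr rfl
      intro i _
      rw [← Finset.sum_add_distrib]
      apply Finset.sum_congr rfl
      intro j _
      simp only [RCLike.star_def]
      ring
    rw [h2]
    refine (norm_add_le _ _).trans (add_le_add h1 ?_)
    refine (norm_sum_le _ _).trans (Finset.sum_le_sum fun i _ => ?_)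
    refine (norm_sum_le _ _).trans (Finset.sum_le_sum fun j _ => ?_)
    rw [norm_mul, norm_mul, RCLike.norm_conj]
    have h3 : ‖x i‖ ≤ 1 := (PiLp.norm_apply_le x i).trans hx.le
    have h4 : ‖x j‖ ≤ 1 := (PiLp.norm_apply_le x j).trans hx.le
    calc ‖x i‖ * ‖M i j - N i j‖ * ‖x j‖ ≤ 1 * ‖M i j - N i j‖ * 1 := by gcongr
      _ = _ := by ring

theorem numRadius_tendsto {α : Type*} {l : Filter α} {f : α → Matrix (Fin n) (Fin n) ℂ}
    {M : Matrix (Fin n) (Fin n) ℂ} (h : ∀ i j, Tendsto (fun a => f a i j) l (𝓝 (M i j))) :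
    Tendsto (fun a => numRadius (f a)) l (𝓝 (numRadius M)) := by
  have h1 : Tendsto (fun a => ∑ i, ∑ j, ‖f a i j - M i j‖) l (𝓝 0) := by
    have : (0 : ℝ) = ∑ i : Fin n, ∑ j : Fin n, ‖M i j - M i j‖ := by simp
    rw [this]
    apply tendsto_finsetSum
    intro i _
    apply tendsto_finsetSum
    intro j _
    exact ((h i j).sub_const _).norm
  rw [tendsto_iff_dist_tendsto_zero]
  apply squeeze_zero (fun _ => dist_nonneg) _ h1
  intro a
  rw [Real.dist_eq, abs_le]
  constructor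
  · have := numRadius_le_add M (f a)
    have e : ∑ i, ∑ j, ‖M i j - f a i j‖ = ∑ i, ∑ j, ‖f a i j - M i j‖ := by
      simp_rw [norm_sub_rev]
    rw [e] at this
    linarith
  · have := numRadius_le_add (f a) M
    linarith

/-! ### the segment -/

theorem DD_acc : IsAccretive (DD n) := by
  intro x hx
  have e : star x ⬝ᵥ (DD n *ᵥ x) = ((∑ i : Fin n, (((i : ℕ) : ℝ) + 1) * ‖x i‖ ^ 2 : ℝ) : ℂ) := by
    rw [DD, dotProduct]
    push_cast
    apply Finset.sum_congr rfl
    intro i _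
    rw [Matrix.mulVec_diagonal, Pi.star_apply, RCLike.star_def]
    have : (starRingEnd ℂ (x i)) * x i = ((‖x i‖ : ℝ) : ℂ) ^ 2 := by
      rw [← Complex.normSq_eq_conj_mul_self, Complex.normSq_eq_norm_sq]; push_cast; rfl
    rw [← this]
    ring
  rw [e, Complex.ofReal_re]
  obtain ⟨i, hi⟩ := Function.ne_iff.1 hx
  apply Finset.sum_pos' (fun i _ => by positivity)
  refine ⟨i, Finset.mem_univ _, ?_⟩
  have : 0 < ‖x i‖ := norm_pos_iff.2 hi
  positivity

theorem seg_acc {A : Matrix (Fin n) (Fin n) ℂ} (hA : IsAccretive A) {z : ℝ} (hz0 : 0 ≤ z)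
    (hz1 : z ≤ 1) : IsAccretive (seg A (z : ℂ)) := by
  intro x hx
  have h1 := hA x hx
  have h2 := DD_acc x hx
  unfold seg
  rw [Matrix.add_mulVec, Matrix.smul_mulVec, Matrix.smul_mulVec, dotProduct_add, dotProduct_smul,
    dotProduct_smul, smul_eq_mul, smul_eq_mul, Complex.add_re]
  have e : (1 - (z : ℂ)) = ((1 - z : ℝ) : ℂ) := by push_cast; rfl
  rw [e, Complex.re_ofReal_mul, Complex.re_ofReal_mul]
  rcases eq_or_lt_of_le hz0 with h | h
  · rw [← h]; simpa using h1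
  · have : 0 ≤ (1 - z) * (star x ⬝ᵥ (A *ᵥ x)).re := mul_nonneg (by linarith) h1.le
    have : 0 < z * (star x ⬝ᵥ (DD n *ᵥ x)).re := mul_pos h h2
    linarith

theorem seg_entry (A : Matrix (Fin n) (Fin n) ℂ) (i j : Fin n) :
    Tendsto (fun z : ℝ => seg A (z : ℂ) i j) (𝓝[>] 0) (𝓝 (A i j)) := by
  have h1 : Continuous (fun z : ℝ => seg A (z : ℂ) i j) := by
    unfold seg
    simp only [Matrix.add_apply, Matrix.smul_apply, smul_eq_mul]
    fun_prop
  have h2 := h1.tendsto 0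
  have e : seg A ((0 : ℝ) : ℂ) i j = A i j := by simp [seg]
  rw [e] at h2
  exact h2.mono_left nhdsWithin_le_nhds

theorem seg_tendsto (A : Matrix (Fin n) (Fin n) ℂ) :
    Tendsto (fun z : ℝ => seg A (z : ℂ)) (𝓝[>] 0) (𝓝 A) := by
  exact tendsto_pi_nhds.2 fun i => tendsto_pi_nhds.2 fun j => seg_entry A i j

theorem fracPow_tendsto {A : Matrix (Fin n) (Fin n) ℂ} (hA : IsAccretive A) {t : ℝ} (ht0 : 0 < t)
    (ht1 : t < 1) (i j : Fin n) :
    Tendsto (fun z : ℝ => fracPow (seg A (z : ℂ)) t i j) (𝓝[>] 0) (𝓝 (fracPow A t i j)) := by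
  unfold fracPow
  simp only [Matrix.of_apply]
  apply Tendsto.const_mul
  set C : ℝ := ∑ l, (‖A i l‖ + ‖DD n i l‖) with hC
  have hC0 : 0 ≤ C := by positivity
  have hz01 : ∀ᶠ z : ℝ in 𝓝[>] 0, 0 ≤ z ∧ z ≤ 1 := by
    filter_upwards [Ioo_mem_nhdsGT (show (0 : ℝ) < 1 by norm_num)] with z hz
    exact ⟨hz.1.le, hz.2.le⟩
  apply tendsto_integral_filter_of_dominated_convergence
    (fun s => (2 + 2 * C) * (s ^ (t - 1) * (1 + s)⁻¹))
  · filter_upwards [hz01] with z hz
    exact meas_entry (seg_acc hA hz.1 hz.2) t i j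
  · filter_upwards [hz01] with z hz
    rw [ae_restrict_iff' measurableSet_Ioi]
    refine Eventually.of_forall fun s hs => ?_
    have hs' : 0 < s := hs
    rw [norm_mul, Complex.norm_real, Real.norm_of_nonneg (by positivity)]
    have hsum : ∑ l, ‖seg A (z : ℂ) i l‖ ≤ C := by
      apply Finset.sum_le_sum
      intro l _
      unfold seg
      rw [Matrix.add_apply, Matrix.smul_apply, Matrix.smul_apply, smul_eq_mul, smul_eq_mul]
      refine (norm_add_le _ _).trans ?_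
      have e : (1 - (z : ℂ)) = ((1 - z : ℝ) : ℂ) := by push_cast; rfl
      rw [norm_mul, norm_mul, e, Complex.norm_real, Complex.norm_real,
        Real.norm_of_nonneg (by linarith [hz.2]), Real.norm_of_nonneg hz.1]
      have h1 := norm_nonneg (A i l)
      have h2 := norm_nonneg (DD n i l)
      nlinarith [hz.1, hz.2]
    have := entry_bound (seg_acc hA hz.1 hz.2) hC0 hsum hs' j
    calc s ^ (t - 1) * ‖(seg A (z : ℂ) * ((s : ℂ) • (1 : Matrix (Fin n) (Fin n) ℂ) + seg A (z : ℂ))⁻¹) i j‖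
        ≤ s ^ (t - 1) * ((2 + 2 * C) * (1 + s)⁻¹) := by gcongr
      _ = _ := by ring
  · exact (base_int ht0 ht1).const_mul _
  · rw [ae_restrict_iff' measurableSet_Ioi]
    refine Eventually.of_forall fun s hs => ?_
    have hs' : 0 < s := hs
    apply Tendsto.const_mul
    have h1 : Tendsto (fun z : ℝ => seg A (z : ℂ) *
        ((s : ℂ) • (1 : Matrix (Fin n) (Fin n) ℂ) + seg A (z : ℂ))⁻¹) (𝓝[>] 0)
        (𝓝 (A * ((s : ℂ) • (1 : Matrix (Fin n) (Fin n) ℂ) + A)⁻¹)) := by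
      apply (seg_tendsto A).mul
      exact (inv_contAt (det_ne hA hs'.le)).tendsto.comp (tendsto_const_nhds.add (seg_tendsto A))
    exact (((continuous_apply j).comp (continuous_apply i)).tendsto _).comp h1

/-- **Main theorem.** -/
theorem main {A : Matrix (Fin n) (Fin n) ℂ} (hA : IsAccretive A) {t : ℝ} (ht0 : 0 < t)
    (ht1 : t < 1) : numRadius A ^ t ≤ numRadius (fracPow A t) := by
  rcases Nat.eq_zero_or_pos n with hn | hn
  · subst hn
    have : ∀ K : Matrix (Fin 0) (Fin 0) ℂ, numRadius K = 0 := by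
      intro K
      unfold numRadius
      have : {x : Fin 0 → ℂ | star x ⬝ᵥ x = 1} = ∅ := by
        ext x
        simp
      rw [this, image_empty, Real.sSup_empty]
    rw [this, this, Real.zero_rpow ht0.ne']
  have h1 : Tendsto (fun z : ℝ => numRadius (seg A (z : ℂ)) ^ t) (𝓝[>] 0) (𝓝 (numRadius A ^ t)) :=
    (numRadius_tendsto (seg_entry A)).rpow_const (Or.inr ht0.le)
  have h2 := numRadius_tendsto (fracPow_tendsto hA ht0 ht1)
  apply le_of_tendsto_of_tendsto h1 h2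
  filter_upwards [seg_eventually hn A, Ioo_mem_nhdsGT (show (0 : ℝ) < 1 by norm_num)] with z hz hz1
  exact diag_case hn (seg_acc hA hz1.1.le hz1.2.le) hz ht0 ht1

end

end Pool.Agent.X19.NR
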